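import Pool.Agent.Lib.PFR.Ent

set_option autoImplicit false

namespace Pool.Agent.Lib.Cnv

open Real Pool.Agent.Lib.PFR

variable {Y : Type} {L : ℕ}

/-- the first `i` coordinates -/
def pre (i : ℕ) (ω : Fin L → Y) : Fin L → Option Y := fun j => if j.val < i then some (ω j) else none

theorem pre_eq_iff {i : ℕ} {ω ω' : Fin L → Y} :
    pre i ω = pre i ω' ↔ ∀ j : Fin L, j.val < i → ω j = ω' j := by
  constructor
  · intro h j hj
    have h1 := congrFun h j
    simp only [pre, if_pos hj] at h1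
    exact Option.some_injective _ h1
  · intro h
    funext j
    unfold pre
    split_ifs with hj
    · rw [h j hj]
    · rfl

variable [Fintype Y] {m : (Fin L → Y) → ℝ}

/-- exchangeability -/
def Exc (m : (Fin L → Y) → ℝ) : Prop := ∀ (σ : Equiv.Perm (Fin L)) (ω : Fin L → Y), m (ω ∘ σ) = m ω

theorem Exc.prb (hex : Exc m) (σ : Equiv.Perm (Fin L)) {α : Type} (f : (Fin L → Y) → α) :
    prb m (fun ω => f (ω ∘ σ)) = prb m f := by
  have h := prb_comp (μ := m) (fun ω => ω ∘ σ) f
  funext a
  rw [h a]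
  have h2 : PFR.prb m (fun ω : Fin L → Y => ω ∘ σ) = m := by
    refine prb_equiv (ν := m) (Equiv.arrowCongr σ.symm (Equiv.refl Y)) ?_
    intro ω
    exact (hex σ ω).symm
  rw [h2]

theorem Exc.ent (hex : Exc m) (σ : Equiv.Perm (Fin L)) {α : Type} (f : (Fin L → Y) → α) :
    ent m (fun ω => f (ω ∘ σ)) = ent m f := by
  have h := ent_comp (μ := m) (fun ω => ω ∘ σ) f
  rw [h]
  have h2 : PFR.prb m (fun ω : Fin L → Y => ω ∘ σ) = m := by
    refine prb_equiv (ν := m) (Equiv.arrowCongr σ.symm (Equiv.refl Y)) ?_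
    intro ω
    exact (hex σ ω).symm
  rw [h2]

omit [Fintype Y] in
theorem pre_comp {i : ℕ} (σ : Equiv.Perm (Fin L)) (hσ : ∀ j : Fin L, j.val < i → σ j = j)
    (ω : Fin L → Y) : pre i (ω ∘ σ) = pre i ω := by
  rw [pre_eq_iff]
  intro j hj
  simp [hσ j hj]

/-- the joint law of a later coordinate and the first `i` ones -/
theorem Exc.prb_at (hex : Exc m) {i : ℕ} (j j' : Fin L) (hj : i ≤ j.val) (hj' : i ≤ j'.val) :
    PFR.prb m (fun ω => (ω j, pre i ω)) = PFR.prb m (fun ω => (ω j', pre i ω)) := by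
  have h := hex.prb (Equiv.swap j j') (fun ω => (ω j', pre i ω))
  rw [← h]
  congr 1
  funext ω
  refine Prod.ext ?_ ?_
  · simp
  · dsimp only
    rw [pre_comp]
    intro l hl
    refine Equiv.swap_apply_of_ne_of_ne ?_ ?_
    · rintro rfl; omega
    · rintro rfl; omega

/-- entropy of the first `i` coordinates -/
noncomputable def en (m : (Fin L → Y) → ℝ) (i : ℕ) : ℝ := ent m (pre i)

theorem en_zero (hm : PM m) : en m 0 = 0 := by
  unfold en
  have h : ent m (pre (L := L) (Y := Y) 0) = ent m (fun _ => ()) := by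
    refine ent_congr ?_
    intro ω ω'
    simp [pre_eq_iff]
  rw [h]
  unfold ent PFR.prb
  simp [hm.sum]

theorem en_pair (hex : Exc m) {i : ℕ} (hi : i < L) (j : Fin L) (hj : i ≤ j.val) :
    ent m (fun ω => (ω j, pre i ω)) = en m (i + 1) := by
  classical
  have h1 : ent m (fun ω => (ω j, pre i ω)) = ent m (fun ω => (ω ⟨i, hi⟩, pre i ω)) := by
    rw [ent_eq_sum, ent_eq_sum, hex.prb_at j ⟨i, hi⟩ hj (le_refl _)]
  rw [h1]
  unfold en
  refine ent_congr ?_
  intro ω ω'
  rw [Prod.ext_iff, pre_eq_iff, pre_eq_iff]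
  constructor
  · rintro ⟨h2, h3⟩ l hl
    rcases Nat.lt_succ_iff_lt_or_eq.1 hl with h4 | h4
    · exact h3 l h4
    · have h5 : l = ⟨i, hi⟩ := Fin.ext h4
      rw [h5]
      exact h2
  · intro h2
    exact ⟨h2 ⟨i, hi⟩ (Nat.lt_succ_self i), fun l hl => h2 l (Nat.lt_succ_of_lt hl)⟩

/-- increments -/
noncomputable def inc (m : (Fin L → Y) → ℝ) (i : ℕ) : ℝ := en m (i + 1) - en m i

theorem inc_anti (hm : PM m) (hex : Exc m) {i : ℕ} (hi : i + 1 < L) : inc m (i + 1) ≤ inc m i := by
  have h1 := ent_submod hm (fun ω : Fin L → Y => ω ⟨i, by omega⟩) (fun ω => ω ⟨i + 1, hi⟩) (pre i)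
  rw [en_pair hex (by omega) ⟨i, by omega⟩ (le_refl _),
    en_pair hex (by omega) ⟨i + 1, hi⟩ (by simp)] at h1
  have h2 : ent m (fun ω : Fin L → Y => (ω ⟨i, by omega⟩, ω ⟨i + 1, hi⟩, pre i ω)) = en m (i + 1 + 1) := by
    unfold en
    refine ent_congr ?_
    intro ω ω'
    rw [Prod.ext_iff, Prod.ext_iff, pre_eq_iff, pre_eq_iff]
    constructor
    · rintro ⟨h2, h3, h4⟩ l hl
      dsimp only at h2 h3 h4
      rcases Nat.lt_succ_iff_lt_or_eq.1 hl with h5 | h5
      · rcases Nat.lt_succ_iff_lt_or_eq.1 h5 with h6 | h6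
        · exact h4 l h6
        · have h7 : l = ⟨i, by omega⟩ := Fin.ext h6
          rw [h7]
          exact h2
      · have h7 : l = ⟨i + 1, hi⟩ := Fin.ext h5
        rw [h7]
        exact h3
    · intro h2
      exact ⟨h2 _ (by simp), h2 _ (by simp), fun l hl => h2 l (by omega)⟩
  rw [h2] at h1
  unfold inc
  unfold en at h1 ⊢
  linarith


/-- conditional law of the next coordinate -/
noncomputable def cl (m : (Fin L → Y) → ℝ) (i : ℕ) (hi : i < L) (P : Fin L → Option Y) (y : Y) : ℝ :=
  prb m (fun ω => (ω ⟨i, hi⟩, pre i ω)) (y, P) / prb m (pre i) P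

theorem cl_nonneg (hm : PM m) {i : ℕ} (hi : i < L) (P : Fin L → Option Y) (y : Y) :
    0 ≤ cl m i hi P y := div_nonneg (prb_nonneg hm _ _) (prb_nonneg hm _ _)

theorem cl_sum {i : ℕ} (hi : i < L) (P : Fin L → Option Y) (hP : prb m (pre i) P ≠ 0) :
    ∑ y, cl m i hi P y = 1 := by
  unfold cl
  rw [← Finset.sum_div, sum_prb_pair, div_self hP]

theorem cl_pos (hm : PM m) (hex : Exc m) {i : ℕ} (hi : i < L) (j : Fin L) (hj : i ≤ j.val)
    {ω : Fin L → Y} (h : 0 < m ω) : 0 < cl m i hi (pre i ω) (ω j) := by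
  unfold cl
  rw [← hex.prb_at j ⟨i, hi⟩ hj (le_refl _)]
  exact div_pos (prb_pos hm (fun ω => (ω j, pre i ω)) ω h) (prb_pos hm (pre i) ω h)

theorem sum_log_cl (hm : PM m) (hex : Exc m) {i : ℕ} (hi : i < L) (j : Fin L) (hj : i ≤ j.val) :
    ∑ ω, m ω * (-log (cl m i hi (pre i ω) (ω j))) = inc m i := by
  have h1 : ∀ ω, m ω * (-log (cl m i hi (pre i ω) (ω j)))
      = m ω * (-log (prb m (fun ω => (ω j, pre i ω)) (ω j, pre i ω)))
        - m ω * (-log (prb m (pre i) (pre i ω))) := by
    intro ω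
    rcases (hm.nonneg ω).lt_or_eq with h0 | h0
    · unfold cl
      rw [← hex.prb_at j ⟨i, hi⟩ hj (le_refl _),
        log_div (prb_pos hm (fun ω => (ω j, pre i ω)) ω h0).ne' (prb_pos hm (pre i) ω h0).ne']
      ring
    · rw [← h0]
      simp
  rw [Finset.sum_congr rfl (fun ω _ => h1 ω), Finset.sum_sub_distrib]
  unfold inc
  rw [← en_pair hex hi j hj]
  rfl

/-- the window of length `w` after the first `i` coordinates -/
def win (i w : ℕ) (h : i + w ≤ L) (ω : Fin L → Y) : Fin w → Y := fun j => ω ⟨i + j.val, by omega⟩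

theorem en_win {i w : ℕ} (h : i + w ≤ L) :
    ent m (fun ω => (pre i ω, win i w h ω)) = en m (i + w) := by
  unfold en
  refine ent_congr ?_
  intro ω ω'
  rw [Prod.ext_iff, pre_eq_iff, pre_eq_iff]
  constructor
  · rintro ⟨h2, h3⟩ l hl
    dsimp only at h2 h3
    by_cases h4 : l.val < i
    · exact h2 l h4
    · have h5 := congrFun h3 ⟨l.val - i, by omega⟩
      have h6 : (⟨i + (l.val - i), by omega⟩ : Fin L) = l := Fin.ext (by simp; omega)
      simp only [win] at h5
      rw [h6] at h5
      exact h5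
  · intro h2
    refine ⟨fun l hl => h2 l (by omega), ?_⟩
    funext j
    exact h2 _ (by simp)

open scoped Classical in
/-- Gibbs' inequality against a tilted product -/
theorem tilt (hm : PM m) (hex : Exc m) {i w : ℕ} (hi : i < L) (h : i + w ≤ L)
    (A : (Fin L → Option Y) → (Fin w → Y) → Prop) {ρ θ : ℝ} (hθ : 0 ≤ θ)
    (hρ : 0 ≤ ρ)
    (hA : ∀ P, prb m (pre i) P ≠ 0 → (∑ t : Fin w → Y, if A P t then ∏ j, cl m i hi P (t j) else 0) ≤ ρ) :
    θ * (∑ ω, if A (pre i ω) (win i w h ω) then m ω else 0) ≤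
      en m i + w * inc m i - en m (i + w) + log (1 + (exp θ - 1) * ρ) := by
  have hE : 0 ≤ exp θ - 1 := by
    have := Real.add_one_le_exp θ
    linarith
  set Z : ℝ := 1 + (exp θ - 1) * ρ with hZ
  have hZ1 : 1 ≤ Z := by
    have := mul_nonneg hE hρ
    linarith
  have hZ0 : 0 < Z := by linarith
  set Q : (Fin L → Option Y) × (Fin w → Y) → ℝ := fun t =>
    prb m (pre i) t.1 * (∏ j, cl m i hi t.1 (t.2 j)) * (if A t.1 t.2 then exp θ else 1) / Z with hQ
  have hQ0 : ∀ t, 0 ≤ Q t := by
    intro t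
    refine div_nonneg (mul_nonneg (mul_nonneg (prb_nonneg hm _ _)
      (Finset.prod_nonneg (fun j _ => cl_nonneg hm hi _ _))) ?_) hZ0.le
    split_ifs
    · exact (exp_pos _).le
    · exact zero_le_one
  have hpos : ∀ ω, 0 < m ω → ∀ j : Fin w, 0 < cl m i hi (pre i ω) (win i w h ω j) := by
    intro ω hω j
    exact cl_pos hm hex hi ⟨i + j.val, by omega⟩ (by simp) hω
  have h1 := ent_le_cross hm (fun ω => (pre i ω, win i w h ω)) Q Finset.univ
    (fun ω => Finset.mem_univ _) (fun t _ => hQ0 t)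
    (fun ω hω => by
      rw [hQ]
      dsimp only
      refine div_pos (mul_pos (mul_pos (prb_pos hm (pre i) ω hω)
        (Finset.prod_pos (fun j _ => hpos ω hω j))) ?_) hZ0
      split_ifs
      · exact exp_pos _
      · exact zero_lt_one) ?_
  · rw [en_win h] at h1
    have h2 : ∀ ω, m ω * (-log (Q (pre i ω, win i w h ω)))
        = m ω * (-log (prb m (pre i) (pre i ω)))
          + ∑ j : Fin w, m ω * (-log (cl m i hi (pre i ω) (ω ⟨i + j.val, by omega⟩)))
          - θ * (if A (pre i ω) (win i w h ω) then m ω else 0) + m ω * log Z := by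
      intro ω
      rcases (hm.nonneg ω).lt_or_eq with h0 | h0
      · have a1 := prb_pos hm (pre i) ω h0
        have a2 : (∏ j, cl m i hi (pre i ω) (win i w h ω j)) ≠ 0 :=
          (Finset.prod_pos (fun j _ => hpos ω h0 j)).ne'
        have a3 : log (∏ j, cl m i hi (pre i ω) (win i w h ω j))
            = ∑ j : Fin w, log (cl m i hi (pre i ω) (ω ⟨i + j.val, by omega⟩)) :=
          Real.log_prod (fun j _ => (hpos ω h0 j).ne')
        rw [hQ]
        dsimp only
        rw [← Finset.mul_sum]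
        split_ifs with hA1
        · rw [log_div (mul_ne_zero (mul_ne_zero a1.ne' a2) (exp_pos _).ne') hZ0.ne',
            log_mul (mul_ne_zero a1.ne' a2) (exp_pos _).ne', log_mul a1.ne' a2, log_exp, a3,
            Finset.sum_neg_distrib]
          ring
        · rw [mul_one, log_div (mul_ne_zero a1.ne' a2) hZ0.ne', log_mul a1.ne' a2, a3,
            Finset.sum_neg_distrib]
          ring
      · rw [← h0]
        simp
    rw [Finset.sum_congr rfl (fun ω _ => h2 ω), Finset.sum_add_distrib, Finset.sum_sub_distrib,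
      Finset.sum_add_distrib, Finset.sum_comm, ← Finset.mul_sum, ← Finset.sum_mul, hm.sum] at h1
    have h3 : ∀ j : Fin w, ∑ ω, m ω * (-log (cl m i hi (pre i ω) (ω ⟨i + j.val, by omega⟩))) = inc m i :=
      fun j => sum_log_cl hm hex hi ⟨i + j.val, by omega⟩ (by simp)
    rw [Finset.sum_congr rfl (fun j _ => h3 j)] at h1
    simp only [Finset.sum_const, Finset.card_univ, Fintype.card_fin, nsmul_eq_mul] at h1
    have h4 : ∑ ω, m ω * (-log (prb m (pre i) (pre i ω))) = en m i := rfl
    rw [h4] at h1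
    linarith
  · rw [Fintype.sum_prod_type]
    have h5 : ∀ P, ∑ t : Fin w → Y, Q (P, t) ≤ prb m (pre i) P := by
      intro P
      by_cases hP : prb m (pre i) P = 0
      · rw [hQ]
        simp [hP]
      · have h6 : ∑ t : Fin w → Y, (∏ j, cl m i hi P (t j)) * (if A P t then exp θ else 1) ≤ Z := by
          have h7 : ∀ t : Fin w → Y, (∏ j, cl m i hi P (t j)) * (if A P t then exp θ else 1)
              = (∏ j, cl m i hi P (t j)) + (exp θ - 1) *
                (if A P t then ∏ j, cl m i hi P (t j) else 0) := by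
            intro t
            split_ifs <;> ring
          rw [Finset.sum_congr rfl (fun t _ => h7 t), Finset.sum_add_distrib, ← Finset.mul_sum,
            ← Fintype.piFinset_univ, ← Finset.prod_univ_sum]
          simp only [Fintype.piFinset_univ, cl_sum hi P hP, Finset.prod_const_one]
          have := mul_le_mul_of_nonneg_left (hA P hP) hE
          linarith
        have h8 : ∑ t : Fin w → Y, Q (P, t) = prb m (pre i) P *
            (∑ t : Fin w → Y, (∏ j, cl m i hi P (t j)) * (if A P t then exp θ else 1)) / Z := by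
          rw [hQ, Finset.mul_sum, Finset.sum_div]
          refine Finset.sum_congr rfl (fun t _ => ?_)
          ring
        rw [h8, div_le_iff₀ hZ0]
        exact mul_le_mul_of_nonneg_left h6 (prb_nonneg hm _ _)
    refine le_trans (Finset.sum_le_sum (fun P _ => h5 P)) (le_of_eq ?_)
    exact (hm.law (pre i)).sum


open scoped Classical in
/-- exchangeability for injections -/
theorem Exc.prb_win (hex : Exc m) {i w : ℕ} (h : i + w ≤ L) (σ : Fin w → Fin L)
    (hσ : Function.Injective σ) (hσi : ∀ j, i ≤ (σ j).val)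
    (A : (Fin L → Option Y) → (Fin w → Y) → Prop) :
    (∑ ω, if A (pre i ω) (fun j => ω (σ j)) then m ω else 0) =
      ∑ ω, if A (pre i ω) (win i w h ω) then m ω else 0 := by
  -- a permutation which fixes the first `i` places and sends `i + j` to `σ j`
  obtain ⟨p, hp⟩ := Equiv.Perm.exists_extending_pair
    (fun j : Fin (i + w) => (⟨j.val, by omega⟩ : Fin L))
    (fun j : Fin (i + w) => if hj : j.val < i then (⟨j.val, by omega⟩ : Fin L)
      else σ ⟨j.val - i, by omega⟩)
    (fun a b hab => Fin.ext (by simpa using hab))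
    (fun a b hab => by
      dsimp only at hab
      by_cases ha : a.val < i
      · by_cases hb : b.val < i
        · rw [dif_pos ha, dif_pos hb] at hab
          exact Fin.ext (by simpa using hab)
        · rw [dif_pos ha, dif_neg hb] at hab
          have h1 := hσi ⟨b.val - i, by omega⟩
          rw [← hab] at h1
          simp at h1
          omega
      · by_cases hb : b.val < i
        · rw [dif_neg ha, dif_pos hb] at hab
          have h1 := hσi ⟨a.val - i, by omega⟩
          rw [hab] at h1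
          simp at h1
          omega
        · rw [dif_neg ha, dif_neg hb] at hab
          have h1 := hσ hab
          have h2 := congrArg Fin.val h1
          simp at h2
          exact Fin.ext (by omega))
  have hp1 : ∀ l : Fin L, l.val < i → p l = l := by
    intro l hl
    have h1 := hp ⟨l.val, by omega⟩
    dsimp only at h1
    rw [dif_pos hl] at h1
    exact h1
  have hp2 : ∀ j : Fin w, p ⟨i + j.val, by omega⟩ = σ j := by
    intro j
    have h1 := hp ⟨i + j.val, by omega⟩
    dsimp only at h1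
    rw [dif_neg (by omega)] at h1
    rw [h1]
    congr 1
    exact Fin.ext (by simp)
  have h3 : ∀ ω : Fin L → Y, win i w h (ω ∘ p) = fun j => ω (σ j) := by
    intro ω
    funext j
    simp only [win, Function.comp, hp2 j]
  have h5 : ∑ ω, (if A (pre i ω) (win i w h ω) then m ω else 0) =
      ∑ ω, (if A (pre i (ω ∘ p)) (win i w h (ω ∘ p)) then m (ω ∘ p) else 0) :=
    (Equiv.sum_comp (Equiv.arrowCongr p.symm (Equiv.refl Y))
      (fun ω => if A (pre i ω) (win i w h ω) then m ω else 0)).symm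
  rw [h5]
  refine Finset.sum_congr rfl (fun ω _ => ?_)
  rw [pre_comp p hp1, h3, hex]

open scoped Classical in
/-- mass of the light next coordinates -/
noncomputable def plt (m : (Fin L → Y) → ℝ) (i : ℕ) (hi : i < L) (τ : ℝ) : ℝ :=
  ∑ ω, if cl m i hi (pre i ω) (ω ⟨i, hi⟩) ≤ τ then m ω else 0

open scoped Classical in
theorem inc_le (hm : PM m) (hex : Exc m) {i : ℕ} (hi : i < L) {c Λ : ℝ} (hc : 0 ≤ c)
    (hΛ : log (Fintype.card Y) ≤ Λ) :
    inc m i ≤ c + plt m i hi (exp (-c)) * Λ + 1 := by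
  rw [← sum_log_cl hm hex hi ⟨i, hi⟩ (le_refl _)]
  have hY : 0 < (Fintype.card Y : ℝ) := by
    rcases isEmpty_or_nonempty Y with h | h
    · exfalso
      have h1 := hm.sum
      have : IsEmpty (Fin L → Y) := ⟨fun f => h.elim (f ⟨i, hi⟩)⟩
      simp at h1
    · exact_mod_cast Fintype.card_pos
  have h1 : ∀ ω, m ω * (-log (cl m i hi (pre i ω) (ω ⟨i, hi⟩))) ≤
      m ω * c + (if cl m i hi (pre i ω) (ω ⟨i, hi⟩) ≤ exp (-c) then m ω else 0) * Λ
        + m ω * (1 / ((Fintype.card Y : ℝ) * cl m i hi (pre i ω) (ω ⟨i, hi⟩))) := by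
    intro ω
    rcases (hm.nonneg ω).lt_or_eq with h0 | h0
    · have hq := cl_pos hm hex hi ⟨i, hi⟩ (le_refl _) h0
      set q := cl m i hi (pre i ω) (ω ⟨i, hi⟩) with hqd
      split_ifs with hl
      · have h2 : -log q ≤ log (Fintype.card Y) + 1 / ((Fintype.card Y : ℝ) * q) := by
          have h3 := Real.log_le_sub_one_of_pos (x := 1 / ((Fintype.card Y : ℝ) * q))
            (by positivity)
          rw [one_div, log_inv, log_mul hY.ne' hq.ne'] at h3
          rw [one_div]
          linarith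
        have h4 : m ω * (-log q) ≤ m ω * (Λ + 1 / ((Fintype.card Y : ℝ) * q)) :=
          mul_le_mul_of_nonneg_left (by linarith) h0.le
        have h5 := mul_nonneg h0.le hc
        linarith
      · have h2 : -log q ≤ c := by
          have h3 := Real.log_le_log (exp_pos _) (not_le.1 hl).le
          rw [log_exp] at h3
          linarith
        have h4 := mul_le_mul_of_nonneg_left h2 h0.le
        have h5 : 0 ≤ m ω * (1 / ((Fintype.card Y : ℝ) * q)) :=
          mul_nonneg h0.le (by positivity)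
        linarith
    · rw [← h0]
      simp
  refine le_trans (Finset.sum_le_sum (fun ω _ => h1 ω)) ?_
  rw [Finset.sum_add_distrib, Finset.sum_add_distrib, ← Finset.sum_mul, ← Finset.sum_mul, hm.sum]
  have h6 : ∑ ω, m ω * (1 / ((Fintype.card Y : ℝ) * cl m i hi (pre i ω) (ω ⟨i, hi⟩))) ≤ 1 := by
    rw [← sum_prb_mul (μ := m) (fun ω => (ω ⟨i, hi⟩, pre i ω))
      (fun a => 1 / ((Fintype.card Y : ℝ) * cl m i hi a.2 a.1)), Fintype.sum_prod_type]
    have h7 : ∀ (y : Y) (P : Fin L → Option Y), prb m (fun ω => (ω ⟨i, hi⟩, pre i ω)) (y, P) *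
        (1 / ((Fintype.card Y : ℝ) * cl m i hi P y)) ≤ prb m (pre i) P / Fintype.card Y := by
      intro y P
      by_cases h8 : prb m (fun ω => (ω ⟨i, hi⟩, pre i ω)) (y, P) = 0
      · rw [h8, zero_mul]
        exact div_nonneg (prb_nonneg hm _ _) hY.le
      · have h9 : prb m (pre i) P ≠ 0 := by
          intro h10
          have h11 := prb_pair_le hm (fun ω : Fin L → Y => ω ⟨i, hi⟩) (pre i) y P
          have h12 := prb_nonneg hm (fun ω : Fin L → Y => (ω ⟨i, hi⟩, pre i ω)) (y, P)
          rw [h10] at h11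
          exact h8 (le_antisymm h11 h12)
        refine le_of_eq ?_
        unfold cl
        field_simp
    refine le_trans (Finset.sum_le_sum (fun y _ => Finset.sum_le_sum (fun P _ => h7 y P))) ?_
    have h13 : ∑ P, prb m (pre (L := L) (Y := Y) i) P / (Fintype.card Y : ℝ) = 1 / Fintype.card Y := by
      rw [← Finset.sum_div, (hm.law (pre i)).sum]
    rw [Finset.sum_congr rfl (fun y _ => h13)]
    simp only [Finset.sum_const, Finset.card_univ, nsmul_eq_mul]
    rw [mul_one_div_cancel hY.ne']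
  unfold plt
  linarith

open scoped Classical in
/-- many light coordinates: all of the next `w` coordinates are light -/
theorem all_light (hm : PM m) (hex : Exc m) {i w W : ℕ} (hi : i < L) (h : i + w ≤ L) (hW : i + W ≤ L)
    (hW0 : 0 < W) (τ : ℝ) :
    plt m i hi τ - w / W ≤ (W : ℝ) ^ w *
      ∑ ω, if (∀ j, cl m i hi (pre i ω) (win i w h ω j) ≤ τ) then m ω else 0 := by
  set lt : (Fin L → Option Y) → Y → Prop := fun P y => cl m i hi P y ≤ τ with hlt
  -- expected number of light coordinates in the window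
  have h1 : ∀ j : Fin W, (∑ ω, if lt (pre i ω) (ω ⟨i + j.val, by omega⟩) then m ω else 0)
      = plt m i hi τ := by
    intro j
    have h2 := hex.prb_at (i := i) ⟨i + j.val, by omega⟩ ⟨i, hi⟩ (by simp) (le_refl _)
    have h3 : ∀ l : Fin L, (∑ ω, if lt (pre i ω) (ω l) then m ω else 0) =
        ∑ a : Y × (Fin L → Option Y), prb m (fun ω => (ω l, pre i ω)) a *
          (if lt a.2 a.1 then 1 else 0) := by
      intro l
      rw [sum_prb_mul]
      refine Finset.sum_congr rfl (fun ω _ => ?_)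
      split_ifs <;> simp
    rw [h3, h2, ← h3]
    rfl
  have h4 : ∀ ω, (if (w : ℝ) ≤ ∑ j : Fin W, (if lt (pre i ω) (ω ⟨i + j.val, by omega⟩) then (1:ℝ) else 0)
      then m ω else 0) ≤ ∑ σ : Fin w → Fin W,
        if Function.Injective σ ∧ ∀ j, lt (pre i ω) (ω ⟨i + (σ j).val, by omega⟩) then m ω else 0 := by
    intro ω
    have h0 := hm.nonneg ω
    split_ifs with h5
    · have h6 : w ≤ Fintype.card {j : Fin W // lt (pre i ω) (ω ⟨i + j.val, by omega⟩)} := by
        rw [Fintype.card_subtype]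
        have h7 : ∑ j : Fin W, (if lt (pre i ω) (ω ⟨i + j.val, by omega⟩) then (1:ℝ) else 0)
            = ((Finset.univ.filter (fun j : Fin W => lt (pre i ω) (ω ⟨i + j.val, by omega⟩))).card : ℝ) := by
          rw [Finset.sum_boole]
        rw [h7] at h5
        exact_mod_cast h5
      obtain ⟨g⟩ := Function.Embedding.nonempty_of_card_le
        (α := Fin w) (β := {j : Fin W // lt (pre i ω) (ω ⟨i + j.val, by omega⟩)}) (by simpa using h6)
      have h8 := Finset.single_le_sum (s := Finset.univ) (f := fun σ : Fin w → Fin W =>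
        if Function.Injective σ ∧ ∀ j, lt (pre i ω) (ω ⟨i + (σ j).val, by omega⟩) then m ω else 0)
        (fun σ _ => by
          split_ifs
          · exact h0
          · exact le_refl _) (Finset.mem_univ (fun j => (g j).val))
      rw [if_pos ⟨fun a b hab => g.injective (Subtype.ext hab), fun j => (g j).2⟩] at h8
      exact h8
    · refine Finset.sum_nonneg (fun σ _ => ?_)
      split_ifs
      · exact h0
      · exact le_refl _
  -- Markov
  have h9 : (W : ℝ) * plt m i hi τ ≤ w + W *
      ∑ ω, (if (w : ℝ) ≤ ∑ j : Fin W, (if lt (pre i ω) (ω ⟨i + j.val, by omega⟩) then (1:ℝ) else 0)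
      then m ω else 0) := by
    have h10 : (W : ℝ) * plt m i hi τ = ∑ ω, m ω *
        ∑ j : Fin W, (if lt (pre i ω) (ω ⟨i + j.val, by omega⟩) then (1:ℝ) else 0) := by
      have h11 : ∑ j : Fin W, (∑ ω, if lt (pre i ω) (ω ⟨i + j.val, by omega⟩) then m ω else 0)
          = W * plt m i hi τ := by
        rw [Finset.sum_congr rfl (fun j _ => h1 j)]
        simp
      rw [← h11, Finset.sum_comm]
      refine Finset.sum_congr rfl (fun ω _ => ?_)
      rw [Finset.mul_sum]
      refine Finset.sum_congr rfl (fun j _ => ?_)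
      split_ifs <;> simp
    have h12 : (w : ℝ) + W *
      ∑ ω, (if (w : ℝ) ≤ ∑ j : Fin W, (if lt (pre i ω) (ω ⟨i + j.val, by omega⟩) then (1:ℝ) else 0)
      then m ω else 0) = ∑ ω, (m ω * w + W * (if (w : ℝ) ≤ ∑ j : Fin W,
        (if lt (pre i ω) (ω ⟨i + j.val, by omega⟩) then (1:ℝ) else 0) then m ω else 0)) := by
      rw [Finset.sum_add_distrib, ← Finset.sum_mul, hm.sum, one_mul, Finset.mul_sum]
    rw [h10, h12]
    refine Finset.sum_le_sum (fun ω _ => ?_)
    have h0 := hm.nonneg ω
    have h13 : ∑ j : Fin W, (if lt (pre i ω) (ω ⟨i + j.val, by omega⟩) then (1:ℝ) else 0) ≤ W := by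
      rw [Finset.sum_boole]
      have := Finset.card_filter_le (Finset.univ : Finset (Fin W))
        (fun j : Fin W => lt (pre i ω) (ω ⟨i + j.val, by omega⟩))
      simp only [Finset.card_univ, Fintype.card_fin] at this
      exact_mod_cast this
    split_ifs with h5
    · have := mul_le_mul_of_nonneg_left h13 h0
      have h14 : 0 ≤ m ω * (w : ℝ) := mul_nonneg h0 (Nat.cast_nonneg _)
      linarith
    · have := mul_le_mul_of_nonneg_left (not_le.1 h5).le h0
      linarith
  have h15 : ∑ ω, (if (w : ℝ) ≤ ∑ j : Fin W, (if lt (pre i ω) (ω ⟨i + j.val, by omega⟩) then (1:ℝ) else 0)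
      then m ω else 0) ≤ (W : ℝ) ^ w *
      ∑ ω, if (∀ j, lt (pre i ω) (win i w h ω j)) then m ω else 0 := by
    refine le_trans (Finset.sum_le_sum (fun ω _ => h4 ω)) ?_
    rw [Finset.sum_comm]
    have h16 : ∀ σ : Fin w → Fin W, (∑ ω, if Function.Injective σ ∧
        ∀ j, lt (pre i ω) (ω ⟨i + (σ j).val, by omega⟩) then m ω else 0) ≤
        ∑ ω, if (∀ j, lt (pre i ω) (win i w h ω j)) then m ω else 0 := by
      intro σ
      by_cases hσ : Function.Injective σ
      · have h17 := hex.prb_win h (fun j => (⟨i + (σ j).val, by omega⟩ : Fin L))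
          (fun a b hab => hσ (Fin.ext (by simpa using hab))) (fun j => by simp)
          (fun P t => ∀ j, lt P (t j))
        refine le_of_eq (Eq.trans (Finset.sum_congr rfl (fun ω _ => ?_)) (Eq.trans h17
          (Finset.sum_congr rfl (fun ω _ => ?_))))
        · simp only [hσ, true_and]
          congr
        · congr
      · refine Finset.sum_le_sum (fun ω _ => ?_)
        rw [if_neg (fun h18 => hσ h18.1)]
        split_ifs
        · exact hm.nonneg ω
        · exact le_refl _
    refine le_trans (Finset.sum_le_sum (fun σ _ => h16 σ)) (le_of_eq ?_)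
    simp
  have hWR : (0 : ℝ) < W := by exact_mod_cast hW0
  have h19 : plt m i hi τ - w / W ≤
      ∑ ω, (if (w : ℝ) ≤ ∑ j : Fin W, (if lt (pre i ω) (ω ⟨i + j.val, by omega⟩) then (1:ℝ) else 0)
      then m ω else 0) := by
    rw [sub_le_iff_le_add, ← mul_le_mul_iff_right₀ hWR]
    rw [mul_add, mul_div_cancel₀ _ hWR.ne']
    linarith
  exact le_trans h19 h15


theorem en_add (m : (Fin L → Y) → ℝ) (i n : ℕ) :
    en m (i + n) = en m i + ∑ j ∈ Finset.range n, inc m (i + j) := by
  induction n with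
  | zero => simp
  | succ n ih =>
    rw [Finset.sum_range_succ, ← add_assoc (en m i), ← ih]
    unfold inc
    rw [← add_assoc]
    ring

theorem inc_anti' (hm : PM m) (hex : Exc m) {i j : ℕ} (hij : i ≤ j) (hj : j < L) :
    inc m j ≤ inc m i := by
  induction j, hij using Nat.le_induction with
  | base => exact le_refl _
  | succ n hn ih => exact le_trans (inc_anti hm hex hj) (ih (by omega))

theorem inc_nonneg (hm : PM m) (i : ℕ) : 0 ≤ inc m i := by
  unfold inc en
  have := ent_mono hm (f := pre (L := L) (Y := Y) i) (g := pre (i + 1)) (by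
    intro ω ω' h
    rw [pre_eq_iff] at h ⊢
    exact fun j hj => h j (by omega))
  linarith

theorem plt_le (hm : PM m) {i : ℕ} (hi : i < L) (τ : ℝ) : plt m i hi τ ≤ 1 := by
  classical
  unfold plt
  rw [← hm.sum]
  refine Finset.sum_le_sum (fun ω _ => ?_)
  split_ifs
  · exact le_refl _
  · exact hm.nonneg ω

theorem cl_le_one (hm : PM m) {i : ℕ} (hi : i < L) (P : Fin L → Option Y) (y : Y) :
    cl m i hi P y ≤ 1 := by
  unfold cl
  exact div_le_one_of_le₀ (prb_pair_le hm (fun ω : Fin L → Y => ω ⟨i, hi⟩) (pre i) y P)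
    (prb_nonneg hm _ _)

theorem plt_one (hm : PM m) {i : ℕ} (hi : i < L) : plt m i hi 1 = 1 := by
  classical
  unfold plt
  have h : ∀ ω, (if cl m i hi (pre i ω) (ω ⟨i, hi⟩) ≤ 1 then m ω else 0) = m ω :=
    fun ω => if_pos (cl_le_one hm hi _ _)
  rw [Finset.sum_congr rfl (fun ω _ => h ω), hm.sum]

theorem inc_le_card (hm : PM m) (hex : Exc m) {i : ℕ} (hi : i < L) {Λ : ℝ} (hΛ0 : 0 ≤ Λ)
    (hΛ : log (Fintype.card Y) ≤ Λ) : inc m i ≤ Λ + 1 := by
  have h1 := inc_le hm hex hi (le_refl (0:ℝ)) hΛ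
  have h2 := mul_le_mul_of_nonneg_right (plt_le hm hi (exp (-0))) hΛ0
  linarith

theorem en_top : en m L = ent m (fun ω => ω) := by
  unfold en
  refine ent_congr ?_
  intro ω ω'
  rw [pre_eq_iff]
  constructor
  · intro h
    funext j
    exact h j j.isLt
  · intro h j _
    rw [h]

theorem inc_lower (hm : PM m) (hex : Exc m) {i : ℕ} (hi : i < L) {Λ h : ℝ} (hΛ0 : 0 ≤ Λ)
    (hΛ : log (Fintype.card Y) ≤ Λ) (hh : h * L ≤ ent m (fun ω => ω)) :
    h * L ≤ i * (Λ + 1) + (L - i) * inc m i := by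
  rw [← en_top] at hh
  have h1 : en m L = ∑ j ∈ Finset.range L, inc m j := by
    have := en_add m 0 L
    simp only [zero_add] at this
    rw [this, en_zero hm, zero_add]
  have h2 : ∑ j ∈ Finset.range L, inc m j ≤ i * (Λ + 1) + (L - i) * inc m i := by
    rw [← Finset.sum_range_add_sum_Ico _ hi.le]
    have h3 : ∑ j ∈ Finset.range i, inc m j ≤ ∑ j ∈ Finset.range i, (Λ + 1) :=
      Finset.sum_le_sum (fun j hj => inc_le_card hm hex
        (lt_trans (Finset.mem_range.1 hj) hi) hΛ0 hΛ)
    have h4 : ∑ j ∈ Finset.Ico i L, inc m j ≤ ∑ j ∈ Finset.Ico i L, inc m i :=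
      Finset.sum_le_sum (fun j hj => inc_anti' hm hex (Finset.mem_Ico.1 hj).1 (Finset.mem_Ico.1 hj).2)
    simp only [Finset.sum_const, Finset.card_range, nsmul_eq_mul, Nat.card_Ico] at h3 h4
    rw [Nat.cast_sub hi.le] at h4
    linarith
  linarith

open scoped Classical in
/-- from a next coordinate whose product law charges `R`, to a spread measure which charges `R` -/
theorem restrict_light {w : ℕ} (hw : 1 ≤ w) {q : Y → ℝ} (hq0 : ∀ y, 0 ≤ q y) (hq1 : ∑ y, q y = 1)
    {τ ρ : ℝ} (hτ : 0 ≤ τ) (hρ : 0 < ρ) (R : (Fin w → Y) → Prop)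
    (h : ρ < ∑ t : Fin w → Y, if (R t ∧ ∀ j, q (t j) ≤ τ) then ∏ j, q (t j) else 0) :
    ∃ μ : Y → ℝ, PM μ ∧ (∀ y, μ y ≤ τ / ρ) ∧ (∀ y, μ y ≠ 0 → q y ≠ 0) ∧
        ρ ≤ ∑ t : Fin w → Y, if R t then ∏ j, μ (t j) else 0 := by
  set s : ℝ := ∑ y, if q y ≤ τ then q y else 0 with hs
  have hs0 : 0 ≤ s := Finset.sum_nonneg (fun y _ => by
    split_ifs
    · exact hq0 y
    · exact le_refl _)
  have hs1 : s ≤ 1 := by
    rw [← hq1]
    refine Finset.sum_le_sum (fun y _ => ?_)
    split_ifs
    · exact le_refl _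
    · exact hq0 y
  have h1 : (∑ t : Fin w → Y, if (R t ∧ ∀ j, q (t j) ≤ τ) then ∏ j, q (t j) else 0) ≤ s ^ w := by
    have h2 : s ^ w = ∑ t : Fin w → Y, ∏ j, (if q (t j) ≤ τ then q (t j) else 0) := by
      have h3 := Finset.prod_univ_sum (fun _ : Fin w => (Finset.univ : Finset Y))
        (fun _ y => if q y ≤ τ then q y else 0)
      rw [Fintype.piFinset_univ] at h3
      rw [← h3]
      simp [hs]
    rw [h2]
    refine Finset.sum_le_sum (fun t _ => ?_)
    split_ifs with h3
    · refine le_of_eq (Finset.prod_congr rfl (fun j _ => ?_))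
      rw [if_pos (h3.2 j)]
    · refine Finset.prod_nonneg (fun j _ => ?_)
      split_ifs
      · exact hq0 _
      · exact le_refl _
  have h4 : s ^ w ≤ s := by
    calc s ^ w ≤ s ^ 1 := pow_le_pow_of_le_one hs0 hs1 hw
      _ = s := pow_one s
  have hsρ : ρ < s := lt_of_lt_of_le h (le_trans h1 h4)
  have hspos : 0 < s := lt_trans hρ hsρ
  refine ⟨fun y => if q y ≤ τ then q y / s else 0, ⟨fun y => ?_, ?_⟩, fun y => ?_, fun y => ?_, ?_⟩
  · split_ifs
    · exact div_nonneg (hq0 y) hs0
    · exact le_refl _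
  · have h5 : ∀ y, (if q y ≤ τ then q y / s else 0) = (if q y ≤ τ then q y else 0) / s := by
      intro y
      split_ifs <;> simp
    rw [Finset.sum_congr rfl (fun y _ => h5 y), ← Finset.sum_div, ← hs, div_self hspos.ne']
  · dsimp only
    split_ifs with h6
    · exact div_le_div₀ hτ h6 hρ hsρ.le
    · exact div_nonneg hτ hρ.le
  · intro h5 h6
    refine h5 ?_
    dsimp only
    rw [h6, zero_div, ite_self]
  · refine le_trans h.le (Finset.sum_le_sum (fun t _ => ?_))
    split_ifs with h7 h8 h9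
    · refine Finset.prod_le_prod (fun j _ => hq0 _) (fun j _ => ?_)
      dsimp only
      rw [if_pos (h7.2 j), le_div_iff₀ hspos]
      exact mul_le_of_le_one_right (hq0 _) hs1
    · exact absurd h7.1 h8
    · refine Finset.prod_nonneg (fun j _ => ?_)
      dsimp only
      split_ifs
      · exact div_nonneg (hq0 _) hs0
      · exact le_refl _
    · exact le_refl _

open scoped Classical in
/-- STEP 1 of the conversion lemma: from exchangeable `L`-tuples, all whose `w`-subtuples are in `R`,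
to a spread probability measure on points with `μ^w (R) ≥ ρ`, `ρ` a constant. -/
theorem exch_product (e κ : ℝ) (he : 0 < e) (he1 : e ≤ 1) (hκ : 0 < κ) (w : ℕ) (hw : 1 ≤ w) :
    ∃ ρ > 0, ∃ Λ0 : ℝ, ∀ (Y : Type) [Fintype Y] (L : ℕ) (m : (Fin L → Y) → ℝ) (Λ h : ℝ),
      Λ0 ≤ Λ → PM m → Exc m → log (Fintype.card Y) ≤ Λ → κ * Λ ≤ L → 0 ≤ h →
      h * L ≤ ent m (fun ω => ω) →
      ∀ R : (Fin w → Y) → Prop,
        (∀ ω, 0 < m ω → ∀ σ : Fin w → Fin L, Function.Injective σ → R (fun j => ω (σ j))) →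
      ∃ μ : Y → ℝ, PM μ ∧ (∀ y, μ y ≤ exp (-(h - e * Λ)) / ρ) ∧
        (∀ y, μ y ≠ 0 → ∃ ω, 0 < m ω ∧ ∃ a, ω a = y) ∧
        ρ ≤ ∑ t : Fin w → Y, if R t then ∏ j, μ (t j) else 0 := by
  obtain ⟨W, hW⟩ := exists_nat_ge (4 * w / e)
  have hwR : (1 : ℝ) ≤ w := by exact_mod_cast hw
  have hWpos : (0 : ℝ) < W := lt_of_lt_of_le (by positivity) hW
  have hW0 : 0 < W := by exact_mod_cast hWpos
  have hwW : (w : ℝ) / W ≤ e / 4 := by
    rw [div_le_iff₀ hWpos]
    rw [div_le_iff₀ he] at hW
    linarith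
  set pA : ℝ := e / 8 / (W : ℝ) ^ w with hpA
  have hpApos : 0 < pA := by positivity
  set θ : ℝ := (64 * w ^ 2 / (e * κ) + 2) / pA with hθ
  have hθpos : 0 < θ := by positivity
  refine ⟨exp (-θ), exp_pos _, max (8 / e) (max ((2 * (W + w) + 1) / κ) (32 * w / (e * κ))), ?_⟩
  intro Y _ L m Λ h hΛ0 hm hex hΛ hL hh0 hh R hR
  have hΛ1 : 8 / e ≤ Λ := le_trans (le_max_left _ _) hΛ0
  have hΛ2 : (2 * (W + w) + 1) / κ ≤ Λ := le_trans (le_trans (le_max_left _ _) (le_max_right _ _)) hΛ0
  have hΛ3 : 32 * w / (e * κ) ≤ Λ := le_trans (le_trans (le_max_right _ _) (le_max_right _ _)) hΛ0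
  have hΛpos : 0 < Λ := lt_of_lt_of_le (by positivity) hΛ1
  have hΛ8 : 8 ≤ Λ := by
    have h1 : 8 ≤ 8 / e := by
      rw [le_div_iff₀ he]
      linarith
    linarith
  have hL2 : 2 * ((W : ℝ) + w) + 1 ≤ L := by
    rw [div_le_iff₀ hκ] at hΛ2
    linarith
  have hL3 : 32 * (w : ℝ) ≤ e * L := by
    rw [div_le_iff₀ (by positivity)] at hΛ3
    have : e * (κ * Λ) ≤ e * L := mul_le_mul_of_nonneg_left hL he.le
    linarith
  have hLpos : (0 : ℝ) < L := by linarith
  set n : ℕ := ⌊e * L / (16 * w)⌋₊ with hn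
  have hw16 : (0 : ℝ) < 16 * w := by linarith
  have hn1 : (n : ℝ) * w ≤ e * L / 16 := by
    have h1 : (n : ℝ) ≤ e * L / (16 * w) := Nat.floor_le (by positivity)
    rw [le_div_iff₀ hw16] at h1
    linarith
  have hn2 : e * L / (32 * w) ≤ n := by
    have h1 : e * L / (16 * w) - 1 < n := Nat.sub_one_lt_floor _
    have h2 : 1 ≤ e * L / (32 * w) := by
      rw [le_div_iff₀ (by linarith)]
      linarith
    have h3 : e * L / (16 * w) = e * L / (32 * w) + e * L / (32 * w) := by
      field_simp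
      ring
    linarith
  have hnpos : (0 : ℝ) < n := lt_of_lt_of_le (by positivity) hn2
  have hnw : (n : ℝ) * w ≤ L / 16 := by
    have : e * L ≤ 1 * L := mul_le_mul_of_nonneg_right he1 hLpos.le
    linarith
  have hnL : n * w + W + w ≤ L := by
    have : ((n * w + W + w : ℕ) : ℝ) ≤ L := by
      push_cast
      linarith
    exact_mod_cast this
  -- light threshold
  set c : ℝ := max (h - e * Λ) 0 with hc
  have hc0 : 0 ≤ c := le_max_right _ _
  have hτ : exp (-c) ≤ exp (-(h - e * Λ)) := by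
    rw [exp_le_exp]
    have := le_max_left (h - e * Λ) 0
    linarith
  have hincl : ∀ i, (hi : i ≤ n * w) → h - e * Λ / 2 ≤ inc m i := by
    intro i hi
    have hiL : i < L := by omega
    have h1 := inc_lower hm hex hiL hΛpos.le hΛ hh
    have h2 : (i : ℝ) ≤ e * L / 16 := le_trans (by exact_mod_cast hi) hn1
    have h3 : 0 ≤ (i : ℝ) := Nat.cast_nonneg i
    have h4 : (0 : ℝ) < L - i := by
      have : e * L ≤ 1 * L := mul_le_mul_of_nonneg_right he1 hLpos.le
      linarith
    by_contra h5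
    push Not at h5
    have h6 : (L - i) * inc m i < (L - i) * (h - e * Λ / 2) := mul_lt_mul_of_pos_left h5 h4
    have h7 : h * L < i * (Λ + 1) + (L - i) * (h - e * Λ / 2) := by linarith
    have h8 : i * (Λ + 1) ≤ e * L / 16 * (Λ + 1) := mul_le_mul_of_nonneg_right h2 (by linarith)
    have h9 : 0 ≤ (i : ℝ) * h := mul_nonneg h3 hh0
    have h10 : (i : ℝ) * (e * Λ / 2) ≤ e * L / 16 * (e * Λ / 2) :=
      mul_le_mul_of_nonneg_right h2 (by positivity)
    have h11 : e * L / 16 * (e * Λ / 2) ≤ 1 * L / 16 * (e * Λ / 2) := by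
      refine mul_le_mul_of_nonneg_right ?_ (by positivity)
      have : e * L ≤ 1 * L := mul_le_mul_of_nonneg_right he1 hLpos.le
      linarith
    have h12 : e * L / 16 * (Λ + 1) ≤ e * L / 16 * (2 * Λ) :=
      mul_le_mul_of_nonneg_left (by linarith) (by positivity)
    have h13 : 0 < e * L * Λ := by positivity
    nlinarith
  have hlight : ∀ i, (hi : i ≤ n * w) → (hiL : i < L) → e / 8 ≤ plt m i hiL (exp (-c)) - w / W := by
    intro i hi hiL
    rcases le_or_gt (h - e * Λ) 0 with h1 | h1
    · have h2 : c = 0 := by rw [hc, max_eq_right h1]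
      rw [h2, neg_zero, exp_zero, plt_one hm hiL]
      linarith
    · have h2 : c = h - e * Λ := by rw [hc, max_eq_left h1.le]
      have h3 := inc_le hm hex hiL hc0 hΛ
      have h4 := hincl i hi
      have h5 : e * Λ / 2 - 1 ≤ plt m i hiL (exp (-c)) * Λ := by
        rw [h2] at h3 ⊢
        linarith
      have h6 : e * Λ / 8 * 3 ≤ plt m i hiL (exp (-c)) * Λ := by
        have : 8 ≤ e * Λ := by
          rw [div_le_iff₀ he] at hΛ1
          linarith
        linarith
      have h7 : e / 8 * 3 ≤ plt m i hiL (exp (-c)) := by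
        refine le_of_mul_le_mul_right ?_ hΛpos
        linarith
      linarith
  -- the main dichotomy
  by_cases hmain : ∃ k, k < n ∧ ∃ (hi : k * w < L) (P : Fin L → Option Y), prb m (pre (k * w)) P ≠ 0 ∧
      exp (-θ) < ∑ t : Fin w → Y, if (R t ∧ ∀ j, cl m (k * w) hi P (t j) ≤ exp (-c)) then
        ∏ j, cl m (k * w) hi P (t j) else 0
  · obtain ⟨k, _, hi, P, hP, h1⟩ := hmain
    obtain ⟨μ, h2, h3, h5, h4⟩ := restrict_light hw (fun y => cl_nonneg hm hi P y) (cl_sum hi P hP)
      (exp_pos (-c)).le (exp_pos (-θ)) R h1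
    refine ⟨μ, h2, fun y => le_trans (h3 y) (div_le_div_of_nonneg_right hτ (exp_pos _).le),
      fun y hy => ?_, h4⟩
    by_contra hcon
    push Not at hcon
    refine h5 y hy ?_
    unfold cl
    have h6 : prb m (fun ω => (ω ⟨k * w, hi⟩, pre (k * w) ω)) (y, P) = 0 := by
      unfold prb
      refine Finset.sum_eq_zero (fun ω _ => ?_)
      split_ifs with h7
      · rcases (hm.nonneg ω).lt_or_eq with h8 | h8
        · exact absurd (Prod.ext_iff.1 h7).1 (hcon ω h8 _)
        · exact h8.symm
      · rfl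
    rw [h6, zero_div]
  · exfalso
    have hstep : ∀ k, k < n → θ * pA ≤ w * inc m (k * w) - w * inc m ((k + 1) * w) + 1 := by
      intro k hk
      have hk1 : (k + 1) * w ≤ n * w := Nat.mul_le_mul_right _ hk
      have hkw : (k + 1) * w = k * w + w := by ring
      have hi : k * w < L := by omega
      have hiw : k * w + w ≤ L := by omega
      have h1 : θ * (∑ ω, if (R (win (k * w) w hiw ω) ∧
          ∀ j, cl m (k * w) hi (pre (k * w) ω) (win (k * w) w hiw ω j) ≤ exp (-c)) then m ω else 0) ≤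
          en m (k * w) + w * inc m (k * w) - en m (k * w + w) +
            log (1 + (exp θ - 1) * exp (-θ)) := by
        have h1' := tilt hm hex hi hiw
          (fun P t => R t ∧ ∀ j, cl m (k * w) hi P (t j) ≤ exp (-c)) (θ := θ) hθpos.le
          (exp_pos (-θ)).le (fun P hP => by
            by_contra h2
            refine hmain ⟨k, hk, hi, P, hP, lt_of_lt_of_eq (not_le.1 h2) ?_⟩
            refine Finset.sum_congr rfl (fun t _ => ?_)
            congr)
        convert h1'
      have h2 : log (1 + (exp θ - 1) * exp (-θ)) ≤ 1 := by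
        have h3 : (exp θ - 1) * exp (-θ) = 1 - exp (-θ) := by
          rw [sub_mul, ← exp_add, add_neg_cancel, exp_zero, one_mul]
        rw [h3]
        have h4 := Real.log_le_sub_one_of_pos (x := 1 + (1 - exp (-θ)))
          (by have := exp_le_one_iff.2 (neg_nonpos.2 hθpos.le); linarith)
        have h5 := exp_pos (-θ)
        linarith
      have h6 : pA ≤ ∑ ω, if (R (win (k * w) w hiw ω) ∧
          ∀ j, cl m (k * w) hi (pre (k * w) ω) (win (k * w) w hiw ω j) ≤ exp (-c)) then m ω else 0 := by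
        have h7 := all_light hm hex hi hiw (W := W) (by omega) hW0 (exp (-c))
        have h8 := hlight (k * w) (by omega) hi
        have h9 : pA ≤ ∑ ω, if (∀ j, cl m (k * w) hi (pre (k * w) ω) (win (k * w) w hiw ω j)
            ≤ exp (-c)) then m ω else 0 := by
          rw [hpA, div_le_iff₀ (by positivity)]
          linarith
        refine le_trans h9 (Finset.sum_le_sum (fun ω _ => ?_))
        rcases (hm.nonneg ω).lt_or_eq with h0 | h0
        · have h10 : R (win (k * w) w hiw ω) :=
            hR ω h0 (fun j => ⟨k * w + j.val, by omega⟩) (fun a b hab => Fin.ext (by simpa using hab))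
          simp only [h10, true_and]
          exact le_refl _
        · rw [← h0]
          simp
      have h11 := mul_le_mul_of_nonneg_left h6 hθpos.le
      have h12 := en_add m (k * w) w
      have h13 : ∑ j ∈ Finset.range w, inc m ((k + 1) * w) ≤ ∑ j ∈ Finset.range w, inc m (k * w + j) :=
        Finset.sum_le_sum (fun j hj => inc_anti' hm hex
          (by have := Finset.mem_range.1 hj; omega) (by omega))
      simp only [Finset.sum_const, Finset.card_range, nsmul_eq_mul] at h13
      linarith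
    have hsum : ∀ k, k ≤ n → k * (θ * pA) ≤ w * inc m 0 - w * inc m (k * w) + k := by
      intro k
      induction k with
      | zero => intro _; simp
      | succ k ih =>
        intro hk
        have h1 := ih (by omega)
        have h2 := hstep k (by omega)
        push_cast
        linarith
    have h1 := hsum n (le_refl _)
    have h2 := inc_le_card hm hex (i := 0) (by omega) hΛpos.le hΛ
    have h3 := inc_nonneg hm (n * w)
    have h4 : θ * pA = 64 * w ^ 2 / (e * κ) + 2 := by
      rw [hθ, div_mul_cancel₀ _ hpApos.ne']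
    rw [h4] at h1
    have h5 : (w : ℝ) * inc m 0 ≤ w * (Λ + 1) := mul_le_mul_of_nonneg_left h2 (by linarith)
    have h6 : 0 ≤ (w : ℝ) * inc m (n * w) := mul_nonneg (by linarith) h3
    have h7 : (n : ℝ) * (64 * w ^ 2 / (e * κ) + 2) ≤ w * (2 * Λ) + n := by
      have : (w : ℝ) * (Λ + 1) ≤ w * (2 * Λ) := mul_le_mul_of_nonneg_left (by linarith) (by linarith)
      linarith
    have h8 : w * (2 * Λ) ≤ n * (64 * w ^ 2 / (e * κ)) := by
      have h9 : e * (κ * Λ) / (32 * w) ≤ n := le_trans
        (div_le_div_of_nonneg_right (mul_le_mul_of_nonneg_left hL he.le) (by linarith)) hn2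
      have h10 : e * (κ * Λ) / (32 * w) * (64 * w ^ 2 / (e * κ)) = w * (2 * Λ) := by
        field_simp
        ring
      rw [← h10]
      exact mul_le_mul_of_nonneg_right h9 (by positivity)
    linarith


end Pool.Agent.Lib.Cnv
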