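import Mathlib

/-!
# Cnv.Orth: step 3 of the conversion lemma (pairwise orthogonal subgroups)
-/

set_option autoImplicit false

namespace Pool.Agent.Lib.Cnv

variable {G A Gb Y : Type} [AddCommGroup G] [Finite G] [AddCommGroup A] [AddCommGroup Gb] [Finite Gb]

/-- the group generated by the differences of a set of points -/
def spanDiff (f : Y → G) (Z : Finset Y) : AddSubgroup G :=
  AddSubgroup.closure {x | ∃ a ∈ Z, ∃ b ∈ Z, x = f a - f b}

omit [Finite G] in
theorem sub_mem_spanDiff (f : Y → G) {Z : Finset Y} {a b : Y} (ha : a ∈ Z) (hb : b ∈ Z) :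
    f a - f b ∈ spanDiff f Z := AddSubgroup.subset_closure ⟨a, ha, b, hb, rfl⟩

omit [Finite G] in
theorem spanDiff_mono (f : Y → G) {Z Z' : Finset Y} (h : Z ⊆ Z') : spanDiff f Z ≤ spanDiff f Z' := by
  refine AddSubgroup.closure_mono ?_
  rintro x ⟨a, ha, b, hb, rfl⟩
  exact ⟨a, h ha, b, h hb, rfl⟩

omit [Finite G] in
/-- mutually orthogonal subgroups: the indices of their radicals multiply -/
theorem prod_relIndex_le {ι : Type} [Fintype ι] (b : G →+ G →+ A) (p : G →+ Gb)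
    (hp : ∀ x y, p x = 0 → b x y = 0) (H R : ι → AddSubgroup G)
    (hR : ∀ i, ∀ x ∈ H i, (∀ y ∈ H i, b x y = 0) → x ∈ R i)
    (ho : ∀ i j, i ≠ j → ∀ x ∈ H i, ∀ y ∈ H j, b x y = 0) :
    ∏ i, (R i).relIndex (H i) ≤ Nat.card Gb := by
  classical
  have h1 : ∏ i, (R i).relIndex (H i) = Nat.card (∀ i, H i ⧸ (R i).addSubgroupOf (H i)) := by
    rw [Nat.card_pi]
    rfl
  rw [h1]
  refine Nat.card_le_card_of_injective
    (fun q : (∀ i, H i ⧸ (R i).addSubgroupOf (H i)) => p (∑ i, ((Quotient.out (q i) : H i) : G))) ?_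
  intro q q' hq
  dsimp only at hq
  have h2 : p (∑ i, (((Quotient.out (q i) : H i) : G) - ((Quotient.out (q' i) : H i) : G))) = 0 := by
    rw [Finset.sum_sub_distrib, map_sub, hq, sub_self]
  funext j
  have h3 : ((Quotient.out (q j) : H j) : G) - ((Quotient.out (q' j) : H j) : G) ∈ R j := by
    refine hR j _ ((H j).sub_mem (Quotient.out (q j)).2 (Quotient.out (q' j)).2) ?_
    intro y hy
    have h4 := hp _ y h2
    rw [map_sum, AddMonoidHom.finsetSum_apply, Finset.sum_eq_single j] at h4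
    · exact h4
    · intro i _ hij
      exact ho i j hij _ ((H i).sub_mem (Quotient.out (q i)).2 (Quotient.out (q' i)).2) y hy
    · intro h5
      exact absurd (Finset.mem_univ j) h5
  have h5 : (QuotientAddGroup.mk (Quotient.out (q j)) : H j ⧸ (R j).addSubgroupOf (H j)) =
      QuotientAddGroup.mk (Quotient.out (q' j)) := by
    rw [QuotientAddGroup.eq_iff_sub_mem, AddSubgroup.mem_addSubgroupOf]
    exact h3
  calc q j = QuotientAddGroup.mk (Quotient.out (q j)) := (Quotient.out_eq (q j)).symm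
    _ = QuotientAddGroup.mk (Quotient.out (q' j)) := h5
    _ = q' j := Quotient.out_eq (q' j)

/-- pigeonhole with weights in cosets -/
theorem exists_coset (f : Y → G) (μ : Y → ℝ) (Z : Finset Y) (R V : AddSubgroup G)
    (hV : ∀ a ∈ Z, ∀ b ∈ Z, f a - f b ∈ V) :
    ∃ Z' ⊆ Z, (∀ u ∈ Z', ∀ u' ∈ Z', f u - f u' ∈ R) ∧
      ∑ a ∈ Z, μ a ≤ (R.relIndex V : ℝ) * ∑ a ∈ Z', μ a := by
  classical
  rcases Z.eq_empty_or_nonempty with hZ | ⟨a0, ha0⟩
  · refine ⟨∅, Finset.empty_subset _, by simp, ?_⟩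
    rw [hZ]
    simp
  set Q := V ⧸ R.addSubgroupOf V with hQ
  have : Fintype Q := Fintype.ofFinite Q
  set g : Y → Q := fun a => if h : f a - f a0 ∈ V then QuotientAddGroup.mk ⟨f a - f a0, h⟩ else 0 with hg
  have hcard : (R.relIndex V : ℝ) = (Fintype.card Q : ℝ) := by
    have : R.relIndex V = Nat.card Q := rfl
    rw [this, Nat.card_eq_fintype_card]
  have hsum : ∑ q : Q, ∑ a ∈ Z.filter (fun a => g a = q), μ a = ∑ a ∈ Z, μ a := by
    rw [← Finset.sum_fiberwise Z g μ]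
  have hex : ∃ q : Q, ∑ a ∈ Z, μ a ≤ (Fintype.card Q : ℝ) * ∑ a ∈ Z.filter (fun a => g a = q), μ a := by
    by_contra hcon
    push Not at hcon
    have h1 : ∑ q : Q, (Fintype.card Q : ℝ) * ∑ a ∈ Z.filter (fun a => g a = q), μ a <
        ∑ q : Q, ∑ a ∈ Z, μ a :=
      Finset.sum_lt_sum_of_nonempty ⟨0, Finset.mem_univ _⟩ (fun q _ => hcon q)
    rw [← Finset.mul_sum, hsum] at h1
    simp only [Finset.sum_const, Finset.card_univ, nsmul_eq_mul] at h1
    exact lt_irrefl _ h1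
  obtain ⟨q, hq⟩ := hex
  refine ⟨Z.filter (fun a => g a = q), Finset.filter_subset _ _, ?_, ?_⟩
  · intro u hu u' hu'
    rw [Finset.mem_filter] at hu hu'
    have h1 : g u = g u' := hu.2.trans hu'.2.symm
    simp only [hg] at h1
    rw [dif_pos (hV u hu.1 a0 ha0), dif_pos (hV u' hu'.1 a0 ha0), QuotientAddGroup.eq_iff_sub_mem,
      AddSubgroup.mem_addSubgroupOf] at h1
    have h2 : f u - f a0 - (f u' - f a0) ∈ R := h1
    rwa [sub_sub_sub_cancel_right] at h2
  · rw [hcard]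
    exact hq

/-- STEP 3 of the conversion lemma: `w` sets of points, pairwise orthogonal up to subgroups of index
`≤ M` of their difference groups; then one of them has a heavy totally orthogonal part. -/
theorem exists_orth {w : ℕ} (hw : 0 < w) (b : G →+ G →+ A) (hs : ∀ x y, b x y = b y x) (p : G →+ Gb)
    (hp : ∀ x y, p x = 0 → b x y = 0) (f : Y → G) (μ : Y → ℝ) (hμ : ∀ y, 0 ≤ μ y)
    (Z : Fin w → Finset Y) (H : Fin w → Fin w → AddSubgroup G) (M N : ℝ) (hM1 : 1 ≤ M)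
    (hM : ∀ i j, i ≠ j → ((H i j).relIndex (spanDiff f (Z i)) : ℝ) ≤ M)
    (ho : ∀ i j, i < j → ∀ x ∈ H i j, ∀ y ∈ H j i, b x y = 0)
    (hN : (Nat.card Gb : ℝ) ≤ N) :
    ∃ i, ∃ Z' ⊆ Z i,
      (∀ u ∈ Z', ∀ u' ∈ Z', ∀ v ∈ Z', ∀ v' ∈ Z', b (f u - f u') (f v - f v') = 0) ∧
      (∑ a ∈ Z i, μ a) ^ w ≤ (M ^ w) ^ w * N * (∑ a ∈ Z', μ a) ^ w := by
  classical
  set V : Fin w → AddSubgroup G := fun i => spanDiff f (Z i) with hV
  set K : Fin w → AddSubgroup G := fun i => (⨅ j, if i = j then ⊤ else H i j) ⊓ V i with hK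
  have hKm : ∀ i j, i ≠ j → K i ≤ H i j := by
    intro i j hij
    refine le_trans inf_le_left (le_trans (iInf_le _ j) ?_)
    rw [if_neg hij]
  have hKo : ∀ i j, i ≠ j → ∀ x ∈ K i, ∀ y ∈ K j, b x y = 0 := by
    intro i j hij x hx y hy
    rcases lt_or_gt_of_ne hij with h | h
    · exact ho i j h x (hKm i j hij hx) y (hKm j i (Ne.symm hij) hy)
    · rw [hs]
      exact ho j i h y (hKm j i (Ne.symm hij) hy) x (hKm i j hij hx)
  set R : Fin w → AddSubgroup G := fun i =>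
    { carrier := {x | x ∈ K i ∧ ∀ y ∈ K i, b x y = 0}
      add_mem' := by
        rintro x y ⟨hx, hx'⟩ ⟨hy, hy'⟩
        exact ⟨(K i).add_mem hx hy, fun z hz => by
          rw [map_add, AddMonoidHom.add_apply, hx' z hz, hy' z hz, add_zero]⟩
      zero_mem' := ⟨(K i).zero_mem, fun z _ => by simp⟩
      neg_mem' := by
        rintro x ⟨hx, hx'⟩
        exact ⟨(K i).neg_mem hx, fun z hz => by
          rw [map_neg, AddMonoidHom.neg_apply, hx' z hz, neg_zero]⟩ } with hRd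
  have hRK : ∀ i, R i ≤ K i := fun i x hx => hx.1
  have h1 := prod_relIndex_le b p hp K R (fun i x hx h => ⟨hx, h⟩) hKo
  -- one of the indices is small
  have h2 : ∃ i, (((R i).relIndex (K i) : ℕ) : ℝ) ^ w ≤ N := by
    by_contra hcon
    push Not at hcon
    have hN0 : 0 ≤ N := le_trans (Nat.cast_nonneg _) hN
    have hw' : (Finset.univ : Finset (Fin w)).Nonempty := ⟨⟨0, hw⟩, Finset.mem_univ _⟩
    have h3 : ∏ _i : Fin w, N < ∏ i : Fin w, (((R i).relIndex (K i) : ℕ) : ℝ) ^ w := by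
      rcases hN0.lt_or_eq with h4 | h4
      · exact Finset.prod_lt_prod_of_nonempty (fun _ _ => h4) (fun i _ => hcon i) hw'
      · rw [← h4]
        simp only [Finset.prod_const, Finset.card_univ, Fintype.card_fin]
        rw [zero_pow hw.ne']
        refine Finset.prod_pos (fun i _ => ?_)
        have := hcon i
        rw [← h4] at this
        exact this
    rw [Finset.prod_const, Finset.card_univ, Fintype.card_fin, Finset.prod_pow] at h3
    have h4 : (∏ i : Fin w, (((R i).relIndex (K i) : ℕ) : ℝ)) ≤ N := by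
      refine le_trans ?_ hN
      exact_mod_cast h1
    have h5 : (∏ i : Fin w, (((R i).relIndex (K i) : ℕ) : ℝ)) ^ w ≤ N ^ w :=
      pow_le_pow_left₀ (Finset.prod_nonneg (fun i _ => Nat.cast_nonneg _)) h4 w
    linarith
  obtain ⟨i, hi⟩ := h2
  refine ⟨i, ?_⟩
  obtain ⟨Z', h3, h4, h5⟩ := exists_coset f μ (Z i) (R i) (V i)
    (fun a ha c hc => sub_mem_spanDiff f ha hc)
  refine ⟨Z', h3, ?_, ?_⟩
  · intro u hu u' hu' v hv v' hv'
    exact (h4 u hu u' hu').2 _ (hRK i (h4 v hv v' hv'))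
  · -- the index of R i in V i
    have h6 : (R i).relIndex (V i) = (R i).relIndex (K i) * (K i).relIndex (V i) :=
      (AddSubgroup.relIndex_mul_relIndex (R i) (K i) (V i) (hRK i) inf_le_right).symm
    have h7 : (((K i).relIndex (V i) : ℕ) : ℝ) ≤ M ^ w := by
      have h8 : (K i).relIndex (V i) = (⨅ j, if i = j then ⊤ else H i j).relIndex (V i) :=
        AddSubgroup.inf_relIndex_right _ _
      have h9 := AddSubgroup.relIndex_iInf_le (L := V i) (fun j => if i = j then (⊤ : AddSubgroup G) else H i j)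
      rw [h8]
      have h10 : ((∏ j : Fin w, (if i = j then (⊤ : AddSubgroup G) else H i j).relIndex (V i) : ℕ) : ℝ)
          ≤ M ^ w := by
        push_cast
        calc (∏ j : Fin w, (((if i = j then (⊤ : AddSubgroup G) else H i j).relIndex (V i) : ℕ) : ℝ))
            ≤ ∏ _j : Fin w, M := by
              refine Finset.prod_le_prod (fun j _ => Nat.cast_nonneg _) (fun j _ => ?_)
              by_cases hij : i = j
              · rw [if_pos hij, AddSubgroup.relIndex_top_left]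
                simpa using hM1
              · rw [if_neg hij]
                exact hM i j hij
          _ = M ^ w := by simp
      exact le_trans (by exact_mod_cast h9) h10
    have h11 : 0 ≤ ∑ a ∈ Z', μ a := Finset.sum_nonneg (fun a _ => hμ a)
    have h12 : 0 ≤ ∑ a ∈ Z i, μ a := Finset.sum_nonneg (fun a _ => hμ a)
    calc (∑ a ∈ Z i, μ a) ^ w ≤ (((R i).relIndex (V i) : ℝ) * ∑ a ∈ Z', μ a) ^ w :=
          pow_le_pow_left₀ h12 h5 w
      _ = (((R i).relIndex (K i) : ℕ) : ℝ) ^ w * (((K i).relIndex (V i) : ℕ) : ℝ) ^ w *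
          (∑ a ∈ Z', μ a) ^ w := by
          rw [h6]
          push_cast
          ring
      _ ≤ N * (M ^ w) ^ w * (∑ a ∈ Z', μ a) ^ w := by
          refine mul_le_mul_of_nonneg_right ?_ (pow_nonneg h11 w)
          exact mul_le_mul hi (pow_le_pow_left₀ (Nat.cast_nonneg _) h7 w)
            (pow_nonneg (Nat.cast_nonneg _) w) (le_trans (Nat.cast_nonneg _) hN)
      _ = (M ^ w) ^ w * N * (∑ a ∈ Z', μ a) ^ w := by ring

/-- the same for isotropic points: the products on the heavy part are killed by `2`; the heavy part has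
many points if the measure is spread -/
theorem exists_iso {w : ℕ} (hw : 0 < w) (b : G →+ G →+ A) (hs : ∀ x y, b x y = b y x) (p : G →+ Gb)
    (hp : ∀ x y, p x = 0 → b x y = 0) (f : Y → G) (μ : Y → ℝ) (hμ : ∀ y, 0 ≤ μ y)
    (Z : Fin w → Finset Y) (H : Fin w → Fin w → AddSubgroup G) (M N δ B : ℝ) (hM1 : 1 ≤ M)
    (hM : ∀ i j, i ≠ j → ((H i j).relIndex (spanDiff f (Z i)) : ℝ) ≤ M)
    (ho : ∀ i j, i < j → ∀ x ∈ H i j, ∀ y ∈ H j i, b x y = 0)
    (hN : (Nat.card Gb : ℝ) ≤ N) (hi : ∀ i, ∀ a ∈ Z i, b (f a) (f a) = 0) (hδ : 0 ≤ δ)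
    (hZ : ∀ i, δ ≤ ∑ a ∈ Z i, μ a) (hB : ∀ y, μ y ≤ B) :
    ∃ i, ∃ Z' ⊆ Z i, (∀ u ∈ Z', ∀ u' ∈ Z', 2 • b (f u) (f u') = 0) ∧
      δ ^ w ≤ (M ^ w) ^ w * N * (Z'.card * B) ^ w := by
  obtain ⟨i, Z', h1, h2, h3⟩ := exists_orth hw b hs p hp f μ hμ Z H M N hM1 hM ho hN
  refine ⟨i, Z', h1, ?_, ?_⟩
  · intro u hu u' hu'
    have h4 := h2 u hu u' hu' u hu u' hu'
    simp only [map_sub, AddMonoidHom.sub_apply] at h4
    rw [hi i u (h1 hu), hi i u' (h1 hu'), hs (f u') (f u)] at h4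
    rw [two_smul, ← neg_eq_zero, ← h4]
    abel
  · have h6 : ∑ a ∈ Z', μ a ≤ Z'.card * B := by
      have := Finset.sum_le_card_nsmul Z' μ B (fun a _ => hB a)
      rwa [nsmul_eq_mul] at this
    have h7 : 0 ≤ ∑ a ∈ Z', μ a := Finset.sum_nonneg (fun a _ => hμ a)
    have hN0 : 0 ≤ N := le_trans (Nat.cast_nonneg _) hN
    calc δ ^ w ≤ (∑ a ∈ Z i, μ a) ^ w := pow_le_pow_left₀ hδ (hZ i) w
      _ ≤ (M ^ w) ^ w * N * (∑ a ∈ Z', μ a) ^ w := h3
      _ ≤ (M ^ w) ^ w * N * (Z'.card * B) ^ w := by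
          refine mul_le_mul_of_nonneg_left (pow_le_pow_left₀ h7 h6 w) ?_
          exact mul_nonneg (pow_nonneg (pow_nonneg (by linarith) _) _) hN0

end Pool.Agent.Lib.Cnv
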