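import Pool.Agent.Lib.PFR.Ent

/-!
# Conversion lemma, step 2: irreducible pieces and the relation between them
-/

set_option autoImplicit false

namespace Pool.Agent.Lib.Cnv

open Finset Pool.Agent.Lib.PFR

section pieces

variable {Y G : Type} [AddCommGroup G]

/-- the mass of a finite set -/
noncomputable def mass (μ : Y → ℝ) (Z : Finset Y) : ℝ := ∑ y ∈ Z, μ y

/-- the subgroup generated by the differences of a finite set -/
def dg (g : Y → G) (Z : Finset Y) : AddSubgroup G :=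
  AddSubgroup.closure {x | ∃ a ∈ Z, ∃ b ∈ Z, x = g a - g b}

theorem dg_mono (g : Y → G) {Z Z' : Finset Y} (h : Z' ⊆ Z) : dg g Z' ≤ dg g Z := by
  refine AddSubgroup.closure_mono ?_
  rintro x ⟨a, ha, b, hb, rfl⟩
  exact ⟨a, h ha, b, h hb, rfl⟩

theorem mem_dg (g : Y → G) {Z : Finset Y} {a b : Y} (ha : a ∈ Z) (hb : b ∈ Z) :
    g a - g b ∈ dg g Z := AddSubgroup.subset_closure ⟨a, ha, b, hb, rfl⟩

theorem dg_le (g : Y → G) {Z : Finset Y} (H : AddSubgroup G)
    (h : ∀ a ∈ Z, ∀ b ∈ Z, g a - g b ∈ H) : dg g Z ≤ H := by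
  refine (AddSubgroup.closure_le H).2 ?_
  rintro x ⟨a, ha, b, hb, rfl⟩
  exact h a ha b hb

/-- an irreducible piece -/
def IsPiece (g : Y → G) (μ : Y → ℝ) (D : ℕ → ℝ) (e : ℝ) (j : ℕ) (Z : Finset Y) : Prop :=
  D j ≤ mass μ Z ∧ ∀ Z' ⊆ Z, D (j + 1) ≤ mass μ Z' →
    e * (Nat.card (dg g Z) : ℝ) ≤ Nat.card (dg g Z')

theorem mass_mono {μ : Y → ℝ} (hμ : ∀ y, 0 ≤ μ y) {Z Z' : Finset Y} (h : Z' ⊆ Z) :
    mass μ Z' ≤ mass μ Z := Finset.sum_le_sum_of_subset_of_nonneg h (fun y _ _ => hμ y)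

theorem mass_nonneg {μ : Y → ℝ} (hμ : ∀ y, 0 ≤ μ y) (Z : Finset Y) : 0 ≤ mass μ Z :=
  Finset.sum_nonneg (fun y _ => hμ y)

/-- every heavy set contains a piece -/
theorem exists_piece [Finite G] (g : Y → G) (μ : Y → ℝ) (D : ℕ → ℝ) (e : ℝ) (he : 0 < e)
    (J : ℕ) (hJ : e ^ J * (Nat.card G : ℝ) < 1) (S : Finset Y) (hS : D 0 ≤ mass μ S) :
    ∃ j < J, ∃ Z ⊆ S, IsPiece g μ D e j Z := by
  by_contra hcon
  push Not at hcon
  have key : ∀ j ≤ J, ∃ Z ⊆ S, D j ≤ mass μ Z ∧
      (Nat.card (dg g Z) : ℝ) ≤ e ^ j * Nat.card G := by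
    intro j
    induction j with
    | zero =>
      intro _
      refine ⟨S, Finset.Subset.refl _, hS, ?_⟩
      rw [pow_zero, one_mul]
      exact_mod_cast Nat.card_le_card_of_injective (fun x : dg g S => (x : G))
        Subtype.val_injective
    | succ j ih =>
      intro hj
      obtain ⟨Z, hZS, hZ1, hZ2⟩ := ih (by omega)
      have h1 := hcon j (by omega) Z hZS
      unfold IsPiece at h1
      push Not at h1
      obtain ⟨Z', hZ', hm, hc⟩ := h1 hZ1
      refine ⟨Z', hZ'.trans hZS, hm, ?_⟩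
      calc (Nat.card (dg g Z') : ℝ) ≤ e * Nat.card (dg g Z) := hc.le
        _ ≤ e * (e ^ j * Nat.card G) := mul_le_mul_of_nonneg_left hZ2 he.le
        _ = e ^ (j + 1) * Nat.card G := by rw [pow_succ]; ring
  obtain ⟨Z, _, _, h⟩ := key J le_rfl
  have h2 : 1 ≤ Nat.card (dg g Z) := Nat.card_pos
  have h3 : (1 : ℝ) ≤ Nat.card (dg g Z) := by exact_mod_cast h2
  linarith

open scoped Classical in
/-- greedy decomposition into pieces -/
theorem exists_decomp [Finite G] (g : Y → G) (μ : Y → ℝ) (D : ℕ → ℝ) (hD : ∀ j, 0 < D j)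
    (e : ℝ) (he : 0 < e)
    (J : ℕ) (hJ : e ^ J * (Nat.card G : ℝ) < 1) (S : Finset Y) :
    ∃ P : Finset (Finset Y), (∀ Z ∈ P, Z ⊆ S ∧ ∃ j < J, IsPiece g μ D e j Z) ∧
      (∀ Z ∈ P, ∀ Z' ∈ P, Z ≠ Z' → Disjoint Z Z') ∧
      mass μ (S \ P.biUnion id) < D 0 := by
  induction S using Finset.strongInduction with
  | H S ih =>
    by_cases hS : D 0 ≤ mass μ S
    · obtain ⟨j, hj, Z, hZS, hZ⟩ := exists_piece g μ D e he J hJ S hS
      have hne : Z.Nonempty := by
        rw [Finset.nonempty_iff_ne_empty]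
        rintro rfl
        have := hZ.1
        simp only [mass, Finset.sum_empty] at this
        exact absurd this (not_le.2 (hD j))
      have hlt : S \ Z ⊂ S := Finset.sdiff_ssubset hZS hne
      obtain ⟨P, hP1, hP2, hP3⟩ := ih (S \ Z) hlt
      refine ⟨insert Z P, ?_, ?_, ?_⟩
      · intro A hA
        rcases Finset.mem_insert.1 hA with rfl | hA
        · exact ⟨hZS, j, hj, hZ⟩
        · exact ⟨(hP1 A hA).1.trans Finset.sdiff_subset, (hP1 A hA).2⟩
      · intro A hA0 B hB0 hAB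
        rcases Finset.mem_insert.1 hA0 with hA | hA
        · rcases Finset.mem_insert.1 hB0 with hB | hB
          · exact absurd (hA.trans hB.symm) hAB
          · rw [hA]
            exact Finset.disjoint_of_subset_right (hP1 B hB).1 Finset.disjoint_sdiff
        · rcases Finset.mem_insert.1 hB0 with hB | hB
          · rw [hB]
            exact Finset.disjoint_of_subset_left (hP1 A hA).1 Finset.sdiff_disjoint
          · exact hP2 A hA B hB hAB
      · have : S \ (insert Z P).biUnion id = (S \ Z) \ P.biUnion id := by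
          rw [Finset.biUnion_insert]
          ext y
          simp only [Finset.mem_sdiff, Finset.mem_union, id]
          tauto
        rw [this]
        exact hP3
    · refine ⟨∅, by simp, by simp, ?_⟩
      simpa using lt_of_not_ge hS

end pieces

section arith

/-- multiplication by `c` modulo `2^K` -/
theorem two_pow_mul_eq_zero {K k : ℕ} (hk : 1 ≤ k) (hkK : k ≤ K) (c a : ZMod (2 ^ K))
    (hc : (2 : ZMod (2 ^ K)) ^ (k - 1) * c ≠ 0) (h : c * a = 0) :
    (2 : ZMod (2 ^ K)) ^ (K - k) * a = 0 := by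
  have : NeZero (2 ^ K) := ⟨by positivity⟩
  have key : ∀ n : ℕ, ((n : ℕ) : ZMod (2 ^ K)) = 0 ↔ 2 ^ K ∣ n := fun n =>
    ZMod.natCast_eq_zero_iff n (2 ^ K)
  have hcv : ((c.val : ℕ) : ZMod (2 ^ K)) = c := ZMod.natCast_zmod_val c
  have hav : ((a.val : ℕ) : ZMod (2 ^ K)) = a := ZMod.natCast_zmod_val a
  have h1 : 2 ^ K ∣ c.val * a.val := by
    rw [← key]; push_cast; rw [hcv, hav]; exact h
  have h2 : ¬ 2 ^ K ∣ 2 ^ (k - 1) * c.val := by
    rw [← key]; push_cast; rw [hcv]; exact hc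
  have h3 : 2 ^ K ∣ 2 ^ (K - k) * a.val := by
    by_contra h3
    obtain ⟨i, hi⟩ : ∃ i, i ≤ K - k ∧ 2 ^ i ∣ c.val ∧ ¬ 2 ^ (i + 1) ∣ c.val := by
      have hn : ¬ 2 ^ (K - k + 1) ∣ c.val := by
        intro hd
        apply h2
        have := mul_dvd_mul (dvd_refl (2 ^ (k - 1))) hd
        rwa [← pow_add, show k - 1 + (K - k + 1) = K by omega] at this
      classical
      have hex : ∃ i, ¬ 2 ^ (i + 1) ∣ c.val := ⟨K - k, hn⟩
      refine ⟨Nat.find hex, Nat.find_min' hex hn, ?_, Nat.find_spec hex⟩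
      rcases Nat.eq_zero_or_pos (Nat.find hex) with h0 | h0
      · rw [h0]; simp
      · have := Nat.find_min hex (m := Nat.find hex - 1) (by omega)
        rw [not_not, Nat.sub_add_cancel h0] at this
        exact this
    obtain ⟨l, hl⟩ : ∃ l, l ≤ k - 1 ∧ 2 ^ l ∣ a.val ∧ ¬ 2 ^ (l + 1) ∣ a.val := by
      have hn : ¬ 2 ^ (k - 1 + 1) ∣ a.val := by
        intro hd
        apply h3
        have := mul_dvd_mul (dvd_refl (2 ^ (K - k))) hd
        rwa [← pow_add, show K - k + (k - 1 + 1) = K by omega] at this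
      classical
      have hex : ∃ i, ¬ 2 ^ (i + 1) ∣ a.val := ⟨k - 1, hn⟩
      refine ⟨Nat.find hex, Nat.find_min' hex hn, ?_, Nat.find_spec hex⟩
      rcases Nat.eq_zero_or_pos (Nat.find hex) with h0 | h0
      · rw [h0]; simp
      · have := Nat.find_min hex (m := Nat.find hex - 1) (by omega)
        rw [not_not, Nat.sub_add_cancel h0] at this
        exact this
    have h4 : 2 ^ (i + l + 1) ∣ c.val * a.val :=
      dvd_trans (pow_dvd_pow 2 (by omega)) h1
    rcases succ_dvd_or_succ_dvd_of_succ_sum_dvd_mul Nat.prime_two.prime hi.2.1 hl.2.1 h4 with h5 | h5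
    · exact hi.2.2 h5
    · exact hl.2.2 h5
  have h4 := (key _).2 h3
  push_cast at h4
  rwa [hav] at h4

/-- the number of `c` killed by `2^(k-1)` -/
theorem card_killed {K k : ℕ} (hk : 1 ≤ k) (hkK : k ≤ K) [NeZero (2 ^ K)] :
    (Finset.univ.filter (fun c : ZMod (2 ^ K) => (2 : ZMod (2 ^ K)) ^ (k - 1) * c = 0)).card
      ≤ 2 ^ (k - 1) := by
  have hsub : ∀ c ∈ Finset.univ.filter
      (fun c : ZMod (2 ^ K) => (2 : ZMod (2 ^ K)) ^ (k - 1) * c = 0),
      2 ^ (K - k + 1) ∣ c.val := by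
    intro c hc
    rw [Finset.mem_filter] at hc
    have h1 : ((2 ^ (k - 1) * c.val : ℕ) : ZMod (2 ^ K)) = 0 := by
      push_cast
      rw [ZMod.natCast_zmod_val c]
      exact hc.2
    rw [ZMod.natCast_eq_zero_iff] at h1
    have h2 : 2 ^ (k - 1) * 2 ^ (K - k + 1) ∣ 2 ^ (k - 1) * c.val := by
      rwa [← pow_add, show k - 1 + (K - k + 1) = K by omega]
    exact Nat.dvd_of_mul_dvd_mul_left (by positivity) h2
  calc _ ≤ (Finset.range (2 ^ (k - 1))).card := by
        refine Finset.card_le_card_of_injOn (fun c => c.val / 2 ^ (K - k + 1)) ?_ ?_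
        · intro c hc
          have h1 : c.val < 2 ^ K := ZMod.val_lt c
          simp only [Finset.coe_range, Set.mem_Iio]
          rw [Nat.div_lt_iff_lt_mul (by positivity), ← pow_add,
            show k - 1 + (K - k + 1) = K by omega]
          exact h1
        · intro c hc c' hc' h
          have h1 := hsub c (by exact_mod_cast hc)
          have h2 := hsub c' (by exact_mod_cast hc')
          simp only at h
          have h3 : c.val = c'.val := by
            rw [← Nat.div_mul_cancel h1, ← Nat.div_mul_cancel h2, h]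
          exact ZMod.val_injective _ h3
    _ = 2 ^ (k - 1) := Finset.card_range _

end arith

section unrelated

variable {Y G : Type} [AddCommGroup G]

/-- the relation between two finite sets: subgroups of small index, orthogonal modulo `2^k` -/
def Rel {K : ℕ} (k : ℕ) (g : Y → G) (b : G →+ G →+ ZMod (2 ^ K)) (e : ℝ) (Z Z' : Finset Y) :
    Prop :=
  ∃ H ≤ dg g Z, ∃ H' ≤ dg g Z', e * (Nat.card (dg g Z) : ℝ) ≤ Nat.card H ∧
    e * (Nat.card (dg g Z') : ℝ) ≤ Nat.card H' ∧
    ∀ h ∈ H, ∀ h' ∈ H', (2 : ZMod (2 ^ K)) ^ (K - k) * b h h' = 0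

/-- approximate duality at one scale: `T` = size of the character sum, `s` = mass of the cosets -/
def AD {K : ℕ} [Fintype G] [NeZero (2 ^ K)] (b : G →+ G →+ ZMod (2 ^ K)) (T s : ℝ) : Prop :=
  ∀ (c : ZMod (2 ^ K)) (μ μ' : G → ℝ), PM μ → PM μ' →
    T ≤ ‖∑ x, ∑ y, (μ x : ℂ) * (μ' y : ℂ) * ZMod.stdAddChar (c * b x y)‖ →
    ∃ (H : AddSubgroup G) (x₀ y₀ : G) (A A' : Finset G),
      (∀ x ∈ A, x - x₀ ∈ H) ∧ (∀ y ∈ A', ∀ h ∈ H, c * b h y = c * b h y₀) ∧
      s ≤ mass μ A ∧ s ≤ mass μ' A'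

open scoped Classical in
/-- the law of `g` on `Z` -/
noncomputable def law (g : Y → G) (μ : Y → ℝ) (Z : Finset Y) (x : G) : ℝ :=
  (∑ y ∈ Z, if g y = x then μ y else 0) / mass μ Z

variable [Fintype G]

omit [AddCommGroup G] in
theorem sum_law (g : Y → G) (μ : Y → ℝ) (Z : Finset Y) {R : Type} [NormedField R]
    [NormedAlgebra ℝ R] (F : G → R) :
    ∑ x, algebraMap ℝ R (law g μ Z x) * F x =
      (∑ y ∈ Z, algebraMap ℝ R (μ y) * F (g y)) / algebraMap ℝ R (mass μ Z) := by
  classical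
  unfold law
  simp_rw [map_div₀, map_sum, Finset.sum_div, Finset.sum_mul]
  rw [Finset.sum_comm]
  refine Finset.sum_congr rfl (fun y _ => ?_)
  rw [Finset.sum_eq_single (g y)]
  · rw [if_pos rfl]; ring
  · intro x _ hx
    rw [if_neg (fun h => hx h.symm), map_zero]
    simp
  · intro h; exact absurd (Finset.mem_univ _) h

omit [AddCommGroup G] in
theorem pm_law (g : Y → G) {μ : Y → ℝ} (hμ : ∀ y, 0 ≤ μ y) (Z : Finset Y) (hZ : 0 < mass μ Z) :
    PM (law g μ Z) := by
  classical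
  refine ⟨fun x => div_nonneg (Finset.sum_nonneg (fun y _ => ?_)) hZ.le, ?_⟩
  · split_ifs
    · exact hμ y
    · exact le_rfl
  · have h := sum_law g μ Z (R := ℝ) (fun _ => 1)
    simp only [Algebra.algebraMap_self, RingHom.id_apply, mul_one] at h
    rw [h]
    exact div_self hZ.ne'

open scoped Classical in
/-- two pieces that are not related have small character sums -/
theorem char_of_unrelated {K k : ℕ} (hk : 1 ≤ k) (hkK : k ≤ K) [NeZero (2 ^ K)] (g : Y → G)
    (b : G →+ G →+ ZMod (2 ^ K)) {μ : Y → ℝ} (hμ : ∀ y, 0 ≤ μ y) {D : ℕ → ℝ}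
    (hD : ∀ j, 0 < D j) {e T s : ℝ} (hs : 0 ≤ s) (hDs : ∀ j, D (j + 1) ≤ s * D j)
    (had : AD b T s) {j j' : ℕ} {Z Z' : Finset Y} (hZ : IsPiece g μ D e j Z)
    (hZ' : IsPiece g μ D e j' Z') (hrel : ¬ Rel k g b e Z Z') (c : ZMod (2 ^ K))
    (hc : (2 : ZMod (2 ^ K)) ^ (k - 1) * c ≠ 0) :
    ‖∑ x ∈ Z, ∑ y ∈ Z', (μ x : ℂ) * (μ y : ℂ) * ZMod.stdAddChar (c * b (g x) (g y))‖ ≤
      T * (mass μ Z * mass μ Z') := by
  by_contra hcon
  push Not at hcon
  have hm : 0 < mass μ Z := lt_of_lt_of_le (hD j) hZ.1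
  have hm' : 0 < mass μ Z' := lt_of_lt_of_le (hD j') hZ'.1
  have h1 : ∑ x, ∑ y, (law g μ Z x : ℂ) * (law g μ Z' y : ℂ) * ZMod.stdAddChar (c * b x y) =
      (∑ x ∈ Z, ∑ y ∈ Z', (μ x : ℂ) * (μ y : ℂ) * ZMod.stdAddChar (c * b (g x) (g y))) /
        ((mass μ Z : ℂ) * (mass μ Z' : ℂ)) := by
    have h2 : ∀ x, ∑ y, (law g μ Z x : ℂ) * (law g μ Z' y : ℂ) * ZMod.stdAddChar (c * b x y) =
        (law g μ Z x : ℂ) * ((∑ y ∈ Z', (μ y : ℂ) * ZMod.stdAddChar (c * b x (g y))) /
          (mass μ Z' : ℂ)) := by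
      intro x
      have h3 := sum_law g μ Z' (R := ℂ) (fun y => ZMod.stdAddChar (c * b x y))
      simp only [Complex.coe_algebraMap] at h3
      rw [← h3, Finset.mul_sum]
      refine Finset.sum_congr rfl (fun y _ => ?_)
      ring
    rw [Finset.sum_congr rfl (fun x _ => h2 x)]
    have h3 := sum_law g μ Z (R := ℂ) (fun x =>
      (∑ y ∈ Z', (μ y : ℂ) * ZMod.stdAddChar (c * b x (g y))) / (mass μ Z' : ℂ))
    simp only [Complex.coe_algebraMap] at h3
    rw [h3]
    simp_rw [mul_div_assoc', Finset.mul_sum, ← Finset.sum_div, div_div]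
    congr 1
    · refine Finset.sum_congr rfl (fun x _ => Finset.sum_congr rfl (fun y _ => ?_))
      ring
    · ring
  have h2 : T ≤ ‖∑ x, ∑ y, (law g μ Z x : ℂ) * (law g μ Z' y : ℂ) *
      ZMod.stdAddChar (c * b x y)‖ := by
    rw [h1, norm_div, norm_mul, Complex.norm_real, Complex.norm_real, Real.norm_of_nonneg hm.le,
      Real.norm_of_nonneg hm'.le, le_div_iff₀ (mul_pos hm hm')]
    exact hcon.le
  obtain ⟨H, x₀, y₀, A, A', hA, hA', hx, hy⟩ := had c _ _ (pm_law g hμ Z hm) (pm_law g hμ Z' hm') h2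
  -- masses of the two intersections
  have h3 : ∀ (W : Finset Y) (A : Finset G),
      mass (law g μ W) A = mass μ (W.filter (fun y => g y ∈ A)) / mass μ W := by
    intro W A
    have h4 := sum_law g μ W (R := ℝ) (fun x => if x ∈ A then 1 else 0)
    simp only [Algebra.algebraMap_self, RingHom.id_apply, mul_ite, mul_one, mul_zero] at h4
    have h5 : mass (law g μ W) A = ∑ x, if x ∈ A then law g μ W x else 0 := by
      unfold mass
      rw [Finset.sum_ite_mem, Finset.univ_inter]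
    rw [h5, h4]
    congr 1
    unfold mass
    rw [Finset.sum_filter]
  have hx1 := (le_div_iff₀ hm).1 (hx.trans_eq (h3 Z A))
  have hy1 := (le_div_iff₀ hm').1 (hy.trans_eq (h3 Z' A'))
  apply hrel
  refine ⟨dg g (Z.filter (fun y => g y ∈ A)), dg_mono g (Finset.filter_subset _ _),
    dg g (Z'.filter (fun y => g y ∈ A')),
    dg_mono g (Finset.filter_subset _ _), ?_, ?_, ?_⟩
  · refine hZ.2 _ (Finset.filter_subset _ _) ((hDs j).trans ?_)
    exact (mul_le_mul_of_nonneg_left hZ.1 hs).trans hx1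
  · refine hZ'.2 _ (Finset.filter_subset _ _) ((hDs j').trans ?_)
    exact (mul_le_mul_of_nonneg_left hZ'.1 hs).trans hy1
  · have hH : dg g (Z.filter (fun y => g y ∈ A)) ≤ H := by
      refine dg_le g H ?_
      intro a ha b' hb'
      rw [Finset.mem_filter] at ha hb'
      have := H.sub_mem (hA _ ha.2) (hA _ hb'.2)
      rwa [sub_sub_sub_cancel_right] at this
    let H' : AddSubgroup G :=
      { carrier := {y | ∀ h ∈ H, c * b h y = 0}
        zero_mem' := by intro h _; simp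
        add_mem' := by
          intro x y hx hy h hh
          rw [map_add, mul_add, hx h hh, hy h hh, add_zero]
        neg_mem' := by
          intro x hx h hh
          rw [map_neg, mul_neg, hx h hh, neg_zero] }
    have hH' : dg g (Z'.filter (fun y => g y ∈ A')) ≤ H' := by
      refine dg_le g H' ?_
      intro a ha b' hb' h hh
      rw [Finset.mem_filter] at ha hb'
      rw [map_sub, mul_sub, hA' _ ha.2 h hh, hA' _ hb'.2 h hh, sub_self]
    intro h hh h' hh'
    exact two_pow_mul_eq_zero hk hkK c _ hc (hH' hh' h (hH hh))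

/-- unrelated pieces: the probability of a given value -/
theorem prob_of_unrelated {K k : ℕ} (hk : 1 ≤ k) (hkK : k ≤ K) [NeZero (2 ^ K)] (g : Y → G)
    (b : G →+ G →+ ZMod (2 ^ K)) {μ : Y → ℝ} (hμ : ∀ y, 0 ≤ μ y) {D : ℕ → ℝ}
    (hD : ∀ j, 0 < D j) {e T s : ℝ} (hT : 0 ≤ T) (hs : 0 ≤ s) (hDs : ∀ j, D (j + 1) ≤ s * D j)
    (had : AD b T s) {j j' : ℕ} {Z Z' : Finset Y} (hZ : IsPiece g μ D e j Z)
    (hZ' : IsPiece g μ D e j' Z') (hrel : ¬ Rel k g b e Z Z') (v : ZMod (2 ^ K)) :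
    (∑ x ∈ Z, ∑ y ∈ Z', if b (g x) (g y) = v then μ x * μ y else 0) ≤
      ((2 : ℝ) ^ (k - 1) / 2 ^ K + T) * (mass μ Z * mass μ Z') := by
  classical
  have hm : 0 ≤ mass μ Z := mass_nonneg hμ Z
  have hm' : 0 ≤ mass μ Z' := mass_nonneg hμ Z'
  set P : ℝ := ∑ x ∈ Z, ∑ y ∈ Z', if b (g x) (g y) = v then μ x * μ y else 0 with hP
  set S : ZMod (2 ^ K) → ℂ := fun c =>
    ∑ x ∈ Z, ∑ y ∈ Z', (μ x : ℂ) * (μ y : ℂ) * ZMod.stdAddChar (c * b (g x) (g y)) with hS
  have h1 : (2 : ℂ) ^ K * (P : ℂ) = ∑ c : ZMod (2 ^ K), ZMod.stdAddChar (-(c * v)) * S c := by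
    have h2 : ∀ a : ZMod (2 ^ K), ∑ c : ZMod (2 ^ K), ZMod.stdAddChar (-(c * v)) *
        ZMod.stdAddChar (c * a) = if a = v then (2 : ℂ) ^ K else 0 := by
      intro a
      have h3 := AddChar.sum_mulShift (a - v) (ZMod.isPrimitive_stdAddChar (2 ^ K))
      simp only [sub_eq_zero] at h3
      rw [ZMod.card] at h3
      push_cast at h3
      rw [← h3]
      refine Finset.sum_congr rfl (fun c _ => ?_)
      rw [← AddChar.map_add_eq_mul]
      congr 1
      ring
    have h3 : (P : ℂ) = ∑ x ∈ Z, ∑ y ∈ Z', (μ x : ℂ) * (μ y : ℂ) *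
        (if b (g x) (g y) = v then (1 : ℂ) else 0) := by
      rw [hP]
      push_cast
      refine Finset.sum_congr rfl (fun x _ => Finset.sum_congr rfl (fun y _ => ?_))
      split_ifs <;> simp
    have h4 : ∀ x y, (2 : ℂ) ^ K * ((μ x : ℂ) * (μ y : ℂ) *
        (if b (g x) (g y) = v then (1 : ℂ) else 0)) = ∑ c : ZMod (2 ^ K),
          ZMod.stdAddChar (-(c * v)) * ((μ x : ℂ) * (μ y : ℂ) *
            ZMod.stdAddChar (c * b (g x) (g y))) := by
      intro x y
      have h5 := h2 (b (g x) (g y))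
      have h6 : ∀ c : ZMod (2 ^ K), ZMod.stdAddChar (-(c * v)) * ((μ x : ℂ) * (μ y : ℂ) *
            ZMod.stdAddChar (c * b (g x) (g y))) = ((μ x : ℂ) * (μ y : ℂ)) *
              (ZMod.stdAddChar (-(c * v)) * ZMod.stdAddChar (c * b (g x) (g y))) := by
        intro c; ring
      rw [Finset.sum_congr rfl (fun c _ => h6 c), ← Finset.mul_sum, h5]
      split_ifs <;> ring
    calc (2 : ℂ) ^ K * (P : ℂ) = ∑ x ∈ Z, ∑ y ∈ Z', ∑ c : ZMod (2 ^ K),
          ZMod.stdAddChar (-(c * v)) * ((μ x : ℂ) * (μ y : ℂ) *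
            ZMod.stdAddChar (c * b (g x) (g y))) := by
          rw [h3, Finset.mul_sum]
          refine Finset.sum_congr rfl (fun x _ => ?_)
          rw [Finset.mul_sum]
          refine Finset.sum_congr rfl (fun y _ => ?_)
          rw [h4]
      _ = ∑ x ∈ Z, ∑ c : ZMod (2 ^ K), ∑ y ∈ Z',
          ZMod.stdAddChar (-(c * v)) * ((μ x : ℂ) * (μ y : ℂ) *
            ZMod.stdAddChar (c * b (g x) (g y))) :=
          Finset.sum_congr rfl (fun x _ => Finset.sum_comm)
      _ = ∑ c : ZMod (2 ^ K), ∑ x ∈ Z, ∑ y ∈ Z',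
          ZMod.stdAddChar (-(c * v)) * ((μ x : ℂ) * (μ y : ℂ) *
            ZMod.stdAddChar (c * b (g x) (g y))) := Finset.sum_comm
      _ = ∑ c : ZMod (2 ^ K), ZMod.stdAddChar (-(c * v)) * S c := by
          refine Finset.sum_congr rfl (fun c _ => ?_)
          simp only [hS, Finset.mul_sum]
  -- the trivial bound
  have htriv : ∀ c, ‖S c‖ ≤ mass μ Z * mass μ Z' := by
    intro c
    calc ‖S c‖ ≤ ∑ x ∈ Z, ∑ y ∈ Z', μ x * μ y := by
          refine (norm_sum_le _ _).trans (Finset.sum_le_sum (fun x _ => ?_))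
          refine (norm_sum_le _ _).trans (Finset.sum_le_sum (fun y _ => ?_))
          rw [norm_mul, norm_mul, AddChar.norm_apply, Complex.norm_real, Complex.norm_real,
            Real.norm_of_nonneg (hμ x), Real.norm_of_nonneg (hμ y), mul_one]
      _ = mass μ Z * mass μ Z' := by
          unfold mass
          rw [Finset.sum_mul_sum]
  have hnorm : (2 : ℝ) ^ K * P ≤ ∑ c : ZMod (2 ^ K), ‖S c‖ := by
    have hP0 : 0 ≤ P := by
      refine Finset.sum_nonneg (fun x _ => Finset.sum_nonneg (fun y _ => ?_))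
      split_ifs
      · exact mul_nonneg (hμ x) (hμ y)
      · exact le_rfl
    have h5 : ‖(2 : ℂ) ^ K * (P : ℂ)‖ = (2 : ℝ) ^ K * P := by
      rw [norm_mul, norm_pow, Complex.norm_real, Real.norm_of_nonneg hP0]
      simp
    rw [← h5, h1]
    refine (norm_sum_le _ _).trans (Finset.sum_le_sum (fun c _ => ?_))
    rw [norm_mul, AddChar.norm_apply, one_mul]
  have hsum : ∑ c : ZMod (2 ^ K), ‖S c‖ ≤
      ((2 : ℝ) ^ (k - 1) + 2 ^ K * T) * (mass μ Z * mass μ Z') := by
    have h6 : ∀ c : ZMod (2 ^ K), ‖S c‖ ≤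
        (if (2 : ZMod (2 ^ K)) ^ (k - 1) * c = 0 then mass μ Z * mass μ Z' else 0) +
          T * (mass μ Z * mass μ Z') := by
      intro c
      have hmm : 0 ≤ mass μ Z * mass μ Z' := mul_nonneg hm hm'
      split_ifs with h7
      · exact (htriv c).trans (le_add_of_nonneg_right (mul_nonneg hT hmm))
      · rw [zero_add]
        exact char_of_unrelated hk hkK g b hμ hD hs hDs had hZ hZ' hrel c h7
    refine (Finset.sum_le_sum (fun c _ => h6 c)).trans ?_
    rw [Finset.sum_add_distrib, Finset.sum_const, Finset.card_univ, ZMod.card, ← Finset.sum_filter,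
      Finset.sum_const, nsmul_eq_mul, nsmul_eq_mul]
    have h8 := card_killed hk hkK
    have h9 : ((Finset.univ.filter (fun c : ZMod (2 ^ K) =>
      (2 : ZMod (2 ^ K)) ^ (k - 1) * c = 0)).card : ℝ) ≤ 2 ^ (k - 1) := by exact_mod_cast h8
    have hmm : 0 ≤ mass μ Z * mass μ Z' := mul_nonneg hm hm'
    have h10 := mul_le_mul_of_nonneg_right h9 hmm
    push_cast
    linarith
  have h2K : (0 : ℝ) < 2 ^ K := by positivity
  have h11 := hnorm.trans hsum
  rw [← le_div_iff₀' h2K] at h11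
  refine h11.trans (le_of_eq ?_)
  field_simp

end unrelated

section tuple

variable {Y : Type} [Fintype Y] {w : ℕ}

theorem prod_one (i : Fin w) (μ : Y → ℝ) (hμ : ∑ y, μ y = 1) (u : Y → ℝ) :
    ∑ t : Fin w → Y, u (t i) * ∏ l, μ (t l) = ∑ x, u x * μ x := by
  classical
  have h := Finset.prod_univ_sum (fun _ : Fin w => (Finset.univ : Finset Y))
    (fun l z => (if l = i then u z else 1) * μ z)
  rw [Fintype.piFinset_univ] at h
  have h1 : ∏ l : Fin w, ∑ z, (if l = i then u z else 1) * μ z = ∑ x, u x * μ x := by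
    rw [Finset.prod_eq_single i]
    · simp
    · intro l _ hl
      simp only [if_neg hl, one_mul, hμ]
    · intro h; exact absurd (Finset.mem_univ _) h
  rw [← h1, h]
  refine Finset.sum_congr rfl (fun t _ => ?_)
  rw [Finset.prod_mul_distrib]
  congr 1
  rw [Finset.prod_eq_single i]
  · simp
  · intro l _ hl
    simp only [if_neg hl]
  · intro h; exact absurd (Finset.mem_univ _) h

theorem prod_two {i j : Fin w} (hij : i ≠ j) (μ : Y → ℝ) (hμ : ∑ y, μ y = 1) (u v : Y → ℝ) :
    ∑ t : Fin w → Y, u (t i) * v (t j) * ∏ l, μ (t l) =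
      (∑ x, u x * μ x) * ∑ y, v y * μ y := by
  classical
  have h := Finset.prod_univ_sum (fun _ : Fin w => (Finset.univ : Finset Y))
    (fun l z => (if l = i then u z else if l = j then v z else 1) * μ z)
  rw [Fintype.piFinset_univ] at h
  have h1 : ∏ l : Fin w, ∑ z, (if l = i then u z else if l = j then v z else 1) * μ z =
      (∑ x, u x * μ x) * ∑ y, v y * μ y := by
    rw [Finset.prod_eq_mul i j hij]
    · simp [hij.symm]
    · intro l _ hl
      simp only [if_neg hl.1, if_neg hl.2, one_mul, hμ]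
    · intro h; exact absurd (Finset.mem_univ _) h
    · intro h; exact absurd (Finset.mem_univ _) h
  rw [← h1, h]
  refine Finset.sum_congr rfl (fun t _ => ?_)
  rw [Finset.prod_mul_distrib]
  congr 1
  rw [Finset.prod_eq_mul i j hij]
  · simp [hij.symm]
  · intro l _ hl
    simp only [if_neg hl.1, if_neg hl.2]
  · intro h; exact absurd (Finset.mem_univ _) h
  · intro h; exact absurd (Finset.mem_univ _) h

theorem prod_pair {i j : Fin w} (hij : i ≠ j) (μ : Y → ℝ) (hμ : ∑ y, μ y = 1) (f : Y → Y → ℝ) :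
    ∑ t : Fin w → Y, f (t i) (t j) * ∏ l, μ (t l) = ∑ x, ∑ y, f x y * (μ x * μ y) := by
  classical
  have h1 : ∀ t : Fin w → Y, f (t i) (t j) * ∏ l, μ (t l) =
      ∑ x, (if t i = x then 1 else 0) * f x (t j) * ∏ l, μ (t l) := by
    intro t
    rw [Finset.sum_eq_single (t i)]
    · simp
    · intro x _ hx
      rw [if_neg (fun h => hx h.symm)]
      simp
    · intro h; exact absurd (Finset.mem_univ _) h
  rw [Finset.sum_congr rfl (fun t _ => h1 t), Finset.sum_comm]
  refine Finset.sum_congr rfl (fun x _ => ?_)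
  rw [prod_two hij μ hμ (fun z => if z = x then 1 else 0) (fun y => f x y)]
  have h2 : ∑ z, (if z = x then (1 : ℝ) else 0) * μ z = μ x := by simp
  rw [h2, Finset.mul_sum]
  refine Finset.sum_congr rfl (fun y _ => ?_)
  ring

variable {G : Type} [AddCommGroup G] [Fintype G]

open scoped Classical in
/-- the core of step 2: a likely relation produces mutually related pieces -/
theorem exists_related_core {K k : ℕ} (hk : 1 ≤ k) (hkK : k ≤ K) [NeZero (2 ^ K)] (g : Y → G)
    (b : G →+ G →+ ZMod (2 ^ K)) {μ : Y → ℝ} (hμ : PM μ) {D : ℕ → ℝ}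
    (hD : ∀ j, 0 < D j) {e T s : ℝ} (he : 0 < e) (hT : 0 ≤ T) (hs : 0 ≤ s)
    (hDs : ∀ j, D (j + 1) ≤ s * D j) (J : ℕ) (hJ : e ^ J * (Nat.card G : ℝ) < 1)
    (had : AD b T s) (R : (Fin w → Y) → Prop)
    (hR : ∀ t, R t → ∀ i j, i < j → b (g (t i)) (g (t j)) = 0 ∨ b (g (t i)) (g (t j)) = 1)
    (hρ : w * D 0 + (w : ℝ) ^ 2 * (2 * ((2 : ℝ) ^ (k - 1) / 2 ^ K + T)) <
      ∑ t : Fin w → Y, if R t then ∏ l, μ (t l) else 0) :
    ∃ Z : Fin w → Finset Y, (∀ i, ∃ j < J, IsPiece g μ D e j (Z i)) ∧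
      ∀ i j, i < j → Rel k g b e (Z i) (Z j) := by
  by_contra hcon
  push Not at hcon
  obtain ⟨P, hP1, hP2, hP3⟩ := exists_decomp g μ D hD e he J hJ Finset.univ
  -- the mass of the union
  have hPmass : ∑ A ∈ P, mass μ A ≤ 1 := by
    have h1 : ∑ A ∈ P, mass μ A = mass μ (P.biUnion id) := by
      unfold mass
      rw [Finset.sum_biUnion]
      · rfl
      · intro A hA B hB hAB
        exact hP2 A hA B hB hAB
    rw [h1, ← hμ.sum]
    exact Finset.sum_le_sum_of_subset_of_nonneg (Finset.subset_univ _) (fun y _ _ => hμ.nonneg y)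
  set β : ℝ := 2 * ((2 : ℝ) ^ (k - 1) / 2 ^ K + T) with hβ
  have hβ0 : 0 ≤ β := by positivity
  -- the pair function
  set f : Y → Y → ℝ := fun x y => ∑ A ∈ P, ∑ B ∈ P,
    if Rel k g b e A B then 0 else
      (if x ∈ A ∧ y ∈ B ∧ b (g x) (g y) = 0 then 1 else 0) +
        (if x ∈ A ∧ y ∈ B ∧ b (g x) (g y) = 1 then 1 else 0) with hf
  have hf0 : ∀ x y, 0 ≤ f x y := by
    intro x y
    refine Finset.sum_nonneg (fun A _ => Finset.sum_nonneg (fun B _ => ?_))
    split_ifs <;> norm_num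
  have hfsum : ∑ x, ∑ y, f x y * (μ x * μ y) ≤ β := by
    have h1 : ∀ A ∈ P, ∀ B ∈ P, ∑ x, ∑ y, (if Rel k g b e A B then 0 else
      (if x ∈ A ∧ y ∈ B ∧ b (g x) (g y) = 0 then 1 else 0) +
        (if x ∈ A ∧ y ∈ B ∧ b (g x) (g y) = 1 then (1 : ℝ) else 0)) * (μ x * μ y) ≤
          β * (mass μ A * mass μ B) := by
      intro A hA B hB
      obtain ⟨_, j, _, hpA⟩ := hP1 A hA
      obtain ⟨_, j', _, hpB⟩ := hP1 B hB
      by_cases hrel : Rel k g b e A B
      · simp only [if_pos hrel, zero_mul, Finset.sum_const_zero]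
        exact mul_nonneg hβ0 (mul_nonneg (mass_nonneg hμ.nonneg A) (mass_nonneg hμ.nonneg B))
      · simp only [if_neg hrel]
        have h2 : ∀ v : ZMod (2 ^ K), ∑ x, ∑ y,
            (if x ∈ A ∧ y ∈ B ∧ b (g x) (g y) = v then (1 : ℝ) else 0) * (μ x * μ y) =
            ∑ x ∈ A, ∑ y ∈ B, if b (g x) (g y) = v then μ x * μ y else 0 := by
          intro v
          rw [← Finset.sum_subset (Finset.subset_univ A)]
          · refine Finset.sum_congr rfl (fun x hx => ?_)
            rw [← Finset.sum_subset (Finset.subset_univ B)]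
            · refine Finset.sum_congr rfl (fun y hy => ?_)
              by_cases hv : b (g x) (g y) = v
              · simp [hx, hy, hv]
              · simp [hv]
            · intro y _ hy
              rw [if_neg (fun h => hy h.2.1), zero_mul]
          · intro x _ hx
            refine Finset.sum_eq_zero (fun y _ => ?_)
            rw [if_neg (fun h => hx h.1), zero_mul]
        have h3 := prob_of_unrelated hk hkK g b hμ.nonneg hD hT hs hDs had hpA hpB hrel 0
        have h4 := prob_of_unrelated hk hkK g b hμ.nonneg hD hT hs hDs had hpA hpB hrel 1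
        simp_rw [add_mul, Finset.sum_add_distrib]
        rw [h2 0, h2 1, hβ]
        linarith
    have h5 : ∑ x, ∑ y, f x y * (μ x * μ y) = ∑ A ∈ P, ∑ B ∈ P, ∑ x, ∑ y,
      (if Rel k g b e A B then 0 else
      (if x ∈ A ∧ y ∈ B ∧ b (g x) (g y) = 0 then 1 else 0) +
        (if x ∈ A ∧ y ∈ B ∧ b (g x) (g y) = 1 then (1 : ℝ) else 0)) * (μ x * μ y) := by
      simp only [hf, Finset.sum_mul]
      calc _ = ∑ x, ∑ A ∈ P, ∑ y, ∑ B ∈ P, (if Rel k g b e A B then 0 else
      (if x ∈ A ∧ y ∈ B ∧ b (g x) (g y) = 0 then 1 else 0) +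
        (if x ∈ A ∧ y ∈ B ∧ b (g x) (g y) = 1 then (1 : ℝ) else 0)) * (μ x * μ y) :=
            Finset.sum_congr rfl (fun x _ => Finset.sum_comm)
        _ = ∑ A ∈ P, ∑ x, ∑ y, ∑ B ∈ P, (if Rel k g b e A B then 0 else
      (if x ∈ A ∧ y ∈ B ∧ b (g x) (g y) = 0 then 1 else 0) +
        (if x ∈ A ∧ y ∈ B ∧ b (g x) (g y) = 1 then (1 : ℝ) else 0)) * (μ x * μ y) :=
            Finset.sum_comm
        _ = ∑ A ∈ P, ∑ x, ∑ B ∈ P, ∑ y, (if Rel k g b e A B then 0 else
      (if x ∈ A ∧ y ∈ B ∧ b (g x) (g y) = 0 then 1 else 0) +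
        (if x ∈ A ∧ y ∈ B ∧ b (g x) (g y) = 1 then (1 : ℝ) else 0)) * (μ x * μ y) :=
            Finset.sum_congr rfl (fun A _ => Finset.sum_congr rfl (fun x _ => Finset.sum_comm))
        _ = _ := Finset.sum_congr rfl (fun A _ => Finset.sum_comm)
    rw [h5]
    calc _ ≤ ∑ A ∈ P, ∑ B ∈ P, β * (mass μ A * mass μ B) :=
          Finset.sum_le_sum (fun A hA => Finset.sum_le_sum (fun B hB => h1 A hA B hB))
      _ = β * ((∑ A ∈ P, mass μ A) * ∑ B ∈ P, mass μ B) := by
          rw [Finset.sum_mul_sum, Finset.mul_sum]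
          refine Finset.sum_congr rfl (fun A _ => ?_)
          rw [Finset.mul_sum]
      _ ≤ β * (1 * 1) := by
          have h0 : 0 ≤ ∑ A ∈ P, mass μ A :=
            Finset.sum_nonneg (fun A _ => mass_nonneg hμ.nonneg A)
          exact mul_le_mul_of_nonneg_left (mul_le_mul hPmass hPmass h0 zero_le_one) hβ0
      _ = β := by ring
  -- the bound for one tuple
  set r : Y → ℝ := fun y => if y ∈ Finset.univ \ P.biUnion id then 1 else 0 with hr
  have hrsum : ∑ y, r y * μ y < D 0 := by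
    have : ∑ y, r y * μ y = mass μ (Finset.univ \ P.biUnion id) := by
      unfold mass
      rw [hr]
      simp only [ite_mul, one_mul, zero_mul]
      rw [Finset.sum_ite_mem, Finset.univ_inter]
    rw [this]
    exact hP3
  have hr0 : ∀ y, 0 ≤ r y := by
    intro y; rw [hr]; dsimp only; split_ifs <;> norm_num
  have hone : ∀ t : Fin w → Y, (if R t then ∏ l, μ (t l) else 0) ≤
      ∑ i, r (t i) * ∏ l, μ (t l) +
        ∑ i, ∑ j, if i < j then f (t i) (t j) * ∏ l, μ (t l) else 0 := by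
    intro t
    have hprod : 0 ≤ ∏ l, μ (t l) := Finset.prod_nonneg (fun l _ => hμ.nonneg _)
    have hs1 : 0 ≤ ∑ i, r (t i) * ∏ l, μ (t l) :=
      Finset.sum_nonneg (fun i _ => mul_nonneg (hr0 _) hprod)
    have hs2' : ∀ i j, 0 ≤ (if i < j then f (t i) (t j) * ∏ l, μ (t l) else 0) := by
      intro i j
      split_ifs
      · exact mul_nonneg (hf0 _ _) hprod
      · exact le_rfl
    have hs2 : 0 ≤ ∑ i, ∑ j, if i < j then f (t i) (t j) * ∏ l, μ (t l) else 0 :=
      Finset.sum_nonneg (fun i _ => Finset.sum_nonneg (fun j _ => hs2' i j))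
    split_ifs with hRt
    · by_cases hall : ∀ i, ∃ A ∈ P, t i ∈ A
      · choose Z hZP hZt using hall
        obtain ⟨i, j, hij, hrel⟩ := hcon Z (fun i => (hP1 _ (hZP i)).2)
        have h1 : 1 ≤ f (t i) (t j) := by
          have h2 : (if Rel k g b e (Z i) (Z j) then 0 else
            (if t i ∈ Z i ∧ t j ∈ Z j ∧ b (g (t i)) (g (t j)) = 0 then 1 else 0) +
            (if t i ∈ Z i ∧ t j ∈ Z j ∧ b (g (t i)) (g (t j)) = 1 then (1 : ℝ) else 0)) ≤
              f (t i) (t j) := by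
            rw [hf]
            dsimp only
            refine le_trans ?_ (Finset.single_le_sum (f := fun A => ∑ B ∈ P,
              if Rel k g b e A B then 0 else
      (if t i ∈ A ∧ t j ∈ B ∧ b (g (t i)) (g (t j)) = 0 then 1 else 0) +
        (if t i ∈ A ∧ t j ∈ B ∧ b (g (t i)) (g (t j)) = 1 then (1 : ℝ) else 0))
              (fun A _ => Finset.sum_nonneg (fun B _ => by split_ifs <;> norm_num)) (hZP i))
            refine Finset.single_le_sum (f := fun B =>
              if Rel k g b e (Z i) B then 0 else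
      (if t i ∈ Z i ∧ t j ∈ B ∧ b (g (t i)) (g (t j)) = 0 then 1 else 0) +
        (if t i ∈ Z i ∧ t j ∈ B ∧ b (g (t i)) (g (t j)) = 1 then (1 : ℝ) else 0))
              (fun B _ => by split_ifs <;> norm_num) (hZP j)
          rw [if_neg hrel] at h2
          refine le_trans ?_ h2
          rcases hR t hRt i j hij with h3 | h3
          · rw [if_pos ⟨hZt i, hZt j, h3⟩]
            have : (0 : ℝ) ≤ (if t i ∈ Z i ∧ t j ∈ Z j ∧ b (g (t i)) (g (t j)) = 1 then (1 : ℝ)
              else 0) := by split_ifs <;> norm_num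
            linarith
          · rw [if_pos (c := t i ∈ Z i ∧ t j ∈ Z j ∧ b (g (t i)) (g (t j)) = 1)
              ⟨hZt i, hZt j, h3⟩]
            have : (0 : ℝ) ≤ (if t i ∈ Z i ∧ t j ∈ Z j ∧ b (g (t i)) (g (t j)) = 0 then (1 : ℝ)
              else 0) := by split_ifs <;> norm_num
            linarith
        have h4 : (if i < j then f (t i) (t j) * ∏ l, μ (t l) else 0) ≤
            ∑ i, ∑ j, if i < j then f (t i) (t j) * ∏ l, μ (t l) else 0 := by
          refine le_trans (Finset.single_le_sum (f := fun j =>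
            if i < j then f (t i) (t j) * ∏ l, μ (t l) else 0) (fun j _ => hs2' i j)
            (Finset.mem_univ j)) ?_
          exact Finset.single_le_sum (f := fun i => ∑ j,
            if i < j then f (t i) (t j) * ∏ l, μ (t l) else 0)
            (fun i _ => Finset.sum_nonneg (fun j _ => hs2' i j)) (Finset.mem_univ i)
        rw [if_pos hij] at h4
        have h5 := mul_le_mul_of_nonneg_right h1 hprod
        linarith
      · push Not at hall
        obtain ⟨i, hi⟩ := hall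
        have h1 : r (t i) = 1 := by
          rw [hr]
          dsimp only
          rw [if_pos]
          rw [Finset.mem_sdiff, Finset.mem_biUnion]
          refine ⟨Finset.mem_univ _, ?_⟩
          rintro ⟨A, hA, hA2⟩
          exact hi A hA hA2
        have h2 : r (t i) * ∏ l, μ (t l) ≤ ∑ i, r (t i) * ∏ l, μ (t l) :=
          Finset.single_le_sum (f := fun i => r (t i) * ∏ l, μ (t l))
            (fun i _ => mul_nonneg (hr0 _) hprod) (Finset.mem_univ i)
        rw [h1, one_mul] at h2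
        linarith
    · linarith
  have hfin := Finset.sum_le_sum (fun (t : Fin w → Y) (_ : t ∈ Finset.univ) => hone t)
  rw [Finset.sum_add_distrib] at hfin
  have hA : ∑ t : Fin w → Y, ∑ i, r (t i) * ∏ l, μ (t l) ≤ w * D 0 := by
    rw [Finset.sum_comm]
    calc _ ≤ ∑ i : Fin w, D 0 := by
          refine Finset.sum_le_sum (fun i _ => ?_)
          rw [prod_one i μ hμ.sum r]
          exact hrsum.le
      _ = w * D 0 := by simp
  have hB : ∑ t : Fin w → Y, ∑ i, ∑ j, (if i < j then f (t i) (t j) * ∏ l, μ (t l) else 0) ≤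
      (w : ℝ) ^ 2 * β := by
    rw [Finset.sum_comm]
    calc _ ≤ ∑ i : Fin w, ∑ j : Fin w, β := by
          refine Finset.sum_le_sum (fun i _ => ?_)
          rw [Finset.sum_comm]
          refine Finset.sum_le_sum (fun j _ => ?_)
          by_cases hij : i < j
          · simp only [if_pos hij]
            rw [prod_pair hij.ne μ hμ.sum f]
            exact hfsum
          · simp only [if_neg hij, Finset.sum_const_zero]
            exact hβ0
      _ = (w : ℝ) ^ 2 * β := by
          simp only [Finset.sum_const, Finset.card_univ, Fintype.card_fin, nsmul_eq_mul]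
          ring
  linarith

end tuple

end Pool.Agent.Lib.Cnv
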